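import Pool.Agent.Helper112.LS
import Pool.Agent.K3h21.AV.Var2

set_option autoImplicit false
set_option linter.unusedSectionVars false
set_option linter.unusedVariables false

/-! The variance over windows by the large sieve. -/

namespace Pool.Agent.K3h21.LW

open Finset
open Pool.Agent.Helper112
open Pool.Agent.K3h21.AV

/-- orthogonality -/
theorem orth (q : ℕ) (hq : 0 < q) (m : ℤ) :
    ∑ a ∈ range q, ee ((a : ℝ) * ((m : ℝ) / q)) = if (q : ℤ) ∣ m then (q : ℂ) else 0 := by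
  have hqR : (q : ℝ) ≠ 0 := by positivity
  split_ifs with h
  · obtain ⟨k, rfl⟩ := h
    have : ∀ a ∈ range q, ee ((a : ℝ) * (((q * k : ℤ) : ℝ) / q)) = 1 := by
      intro a _
      have e : (a : ℝ) * (((q * k : ℤ) : ℝ) / q) = ((a * k : ℤ) : ℝ) := by
        push_cast
        field_simp
      rw [e, ls_ee_int]
    rw [Finset.sum_congr rfl this]
    simp
  · have h1 : ∀ a ∈ range q, ee ((a : ℝ) * ((m : ℝ) / q)) = ee ((m : ℝ) / q) ^ a :=
      fun a _ => ls_ee_nat_mul a _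
    rw [Finset.sum_congr rfl h1]
    have h2 : ee ((m : ℝ) / q) ≠ 1 := by
      intro h3
      obtain ⟨n, hn⟩ := ls_ee_eq_one h3
      apply h
      refine ⟨n, ?_⟩
      have : (m : ℝ) = ((q * n : ℤ) : ℝ) := by
        push_cast
        rw [div_eq_iff hqR] at hn
        linarith
      exact_mod_cast this
    rw [geom_sum_eq h2]
    have h3 : ee ((m : ℝ) / q) ^ q = 1 := by
      rw [← ls_ee_nat_mul]
      have : (q : ℝ) * ((m : ℝ) / q) = ((m : ℤ) : ℝ) := by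
        field_simp
      rw [this, ls_ee_int]
    rw [h3, sub_self, zero_div]

/-- the exponential sum over the window -/
noncomputable def FH (H : ℕ) (t : ℝ) : ℂ := ∑ κ ∈ range H, ee (κ * t)

/-- the exponential sum over the set -/
noncomputable def SB (BB : Finset ℕ) (t : ℝ) : ℂ := ∑ y ∈ BB, ee (y * t)

theorem fourier (H d a : ℕ) (hd : 0 < d) (BB : Finset ℕ) :
    |∑ y ∈ BB, dl H y d a| ≤
      (1 / (d : ℝ)) * ∑ b ∈ (range d).erase 0, ‖FH H ((b : ℝ) / d)‖ * ‖SB BB ((b : ℝ) / d)‖ := by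
  have hdR : (0 : ℝ) < d := by exact_mod_cast hd
  have hdC : (d : ℂ) ≠ 0 := by exact_mod_cast hd.ne'
  have h1 : ∀ y κ : ℕ, (((if y + κ ≡ a [MOD d] then (1 : ℝ) else 0) - 1 / d : ℝ) : ℂ) =
      (1 / (d : ℂ)) * ∑ b ∈ (range d).erase 0, ee ((b : ℝ) * ((((y + κ : ℕ) : ℤ) - (a : ℤ) : ℤ) : ℝ) / d) := by
    intro y κ
    have h2 := orth d hd (((y + κ : ℕ) : ℤ) - (a : ℤ))
    rw [← Finset.add_sum_erase (range d) _ (mem_range.2 hd)] at h2
    simp only [Nat.cast_zero, zero_mul, ls_ee_zero] at h2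
    have h3 : ∑ b ∈ (range d).erase 0, ee ((b : ℝ) * ((((y + κ : ℕ) : ℤ) - (a : ℤ) : ℤ) : ℝ) / d) =
        (if (d : ℤ) ∣ ((y + κ : ℕ) : ℤ) - (a : ℤ) then (d : ℂ) else 0) - 1 := by
      rw [← h2, add_sub_cancel_left]
      refine sum_congr rfl fun b _ => ?_
      rw [mul_div_assoc]
    rw [h3]
    have h4 : (y + κ ≡ a [MOD d]) ↔ (d : ℤ) ∣ ((y + κ : ℕ) : ℤ) - (a : ℤ) := by
      rw [Nat.ModEq.comm]
      exact Nat.modEq_iff_dvd
    by_cases h5 : y + κ ≡ a [MOD d]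
    · rw [if_pos h5, if_pos (h4.1 h5)]
      push_cast
      field_simp
    · rw [if_neg h5, if_neg (fun h => h5 (h4.2 h))]
      push_cast
      ring
  have h2 : ((∑ y ∈ BB, dl H y d a : ℝ) : ℂ) = (1 / (d : ℂ)) * ∑ b ∈ (range d).erase 0,
      ee (-((b : ℝ) * a / d)) * (FH H ((b : ℝ) / d) * SB BB ((b : ℝ) / d)) := by
    unfold dl
    rw [Complex.ofReal_sum]
    have h3 : ∀ y ∈ BB, ((∑ κ ∈ range H, ((if y + κ ≡ a [MOD d] then (1 : ℝ) else 0) - 1 / d) : ℝ) : ℂ) =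
        ∑ b ∈ (range d).erase 0, (1 / (d : ℂ)) * (ee (-((b : ℝ) * a / d)) * (FH H ((b : ℝ) / d) * ee (y * ((b : ℝ) / d)))) := by
      intro y _
      rw [Complex.ofReal_sum, sum_congr rfl fun κ _ => h1 y κ]
      simp only [mul_sum]
      rw [sum_comm]
      refine sum_congr rfl fun b _ => ?_
      unfold FH
      rw [sum_mul, mul_sum, mul_sum]
      refine sum_congr rfl fun κ _ => ?_
      rw [← ls_ee_add, ← ls_ee_add]
      congr 2
      push_cast
      ring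
    rw [sum_congr rfl h3, sum_comm, mul_sum]
    refine sum_congr rfl fun b _ => ?_
    unfold SB
    rw [mul_sum, mul_sum, mul_sum]
  have h3 : |∑ y ∈ BB, dl H y d a| = ‖((∑ y ∈ BB, dl H y d a : ℝ) : ℂ)‖ := by
    rw [Complex.norm_real, Real.norm_eq_abs]
  rw [h3, h2, norm_mul]
  have h4 : ‖(1 / (d : ℂ))‖ = 1 / (d : ℝ) := by
    rw [norm_div, norm_one, Complex.norm_natCast]
  rw [h4]
  apply mul_le_mul_of_nonneg_left _ (by positivity)
  refine (norm_sum_le _ _).trans (sum_le_sum fun b _ => ?_)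
  rw [norm_mul, ls_norm_ee, one_mul, norm_mul]

open Classical in
/-- the reduced fractions -/
theorem reduce (φ : ℝ → ℝ) (hφ : ∀ t, 0 ≤ φ t) (d D : ℕ) (hd : 0 < d) (hdD : d ≤ D) :
    ∑ b ∈ (range d).erase 0, φ ((b : ℝ) / d) ≤
      ∑ q ∈ (Icc 2 D).filter (fun q => q ∣ d), ∑ c ∈ (range q).filter (fun c => c.Coprime q), φ ((c : ℝ) / q) := by
  rw [Finset.sum_sigma']
  set g : ℕ → (Σ _ : ℕ, ℕ) := fun b => ⟨d / Nat.gcd b d, b / Nat.gcd b d⟩ with hg
  have hval : ∀ b ∈ (range d).erase 0, φ ((b : ℝ) / d) = φ (((g b).2 : ℝ) / (g b).1) := by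
    intro b hb
    rw [mem_erase, mem_range] at hb
    have hgp : 0 < Nat.gcd b d := Nat.gcd_pos_of_pos_right _ hd
    have h1 : ((b / Nat.gcd b d : ℕ) : ℝ) = (b : ℝ) / (Nat.gcd b d : ℕ) :=
      Nat.cast_div (Nat.gcd_dvd_left b d) (by exact_mod_cast hgp.ne')
    have h2 : ((d / Nat.gcd b d : ℕ) : ℝ) = (d : ℝ) / (Nat.gcd b d : ℕ) :=
      Nat.cast_div (Nat.gcd_dvd_right b d) (by exact_mod_cast hgp.ne')
    simp only [hg]
    rw [h1, h2, div_div_div_cancel_right₀ (by exact_mod_cast hgp.ne')]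
  rw [sum_congr rfl hval]
  have hinj : Set.InjOn g ((range d).erase 0 : Finset ℕ) := by
    intro b hb b' hb' h
    rw [mem_coe, mem_erase, mem_range] at hb hb'
    simp only [hg, Sigma.mk.injEq, heq_eq_eq] at h
    have e1 := Nat.div_mul_cancel (Nat.gcd_dvd_right b d)
    have e2 := Nat.div_mul_cancel (Nat.gcd_dvd_right b' d)
    have e3 := Nat.div_mul_cancel (Nat.gcd_dvd_left b d)
    have e4 := Nat.div_mul_cancel (Nat.gcd_dvd_left b' d)
    have hpos : 0 < d / Nat.gcd b d := Nat.div_pos (Nat.gcd_le_right _ hd) (Nat.gcd_pos_of_pos_right _ hd)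
    have e5 : Nat.gcd b d = Nat.gcd b' d := by
      apply Nat.eq_of_mul_eq_mul_left hpos
      rw [e1]
      rw [h.1, e2]
    rw [← e3, ← e4, h.2, e5]
  rw [← sum_image (g := g) (f := fun x => φ ((x.2 : ℝ) / x.1)) hinj]
  apply sum_le_sum_of_subset_of_nonneg _ fun _ _ _ => hφ _
  intro x hx
  rw [mem_image] at hx
  obtain ⟨b, hb, rfl⟩ := hx
  rw [mem_erase, mem_range] at hb
  have hgp : 0 < Nat.gcd b d := Nat.gcd_pos_of_pos_right _ hd
  rw [mem_sigma, mem_filter, mem_filter, mem_range, mem_Icc]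
  simp only [hg]
  have hlt : b / Nat.gcd b d < d / Nat.gcd b d := Nat.div_lt_div_of_lt_of_dvd (Nat.gcd_dvd_right b d) hb.2
  have hpos : 0 < b / Nat.gcd b d := Nat.div_pos (Nat.gcd_le_left _ (by omega)) hgp
  refine ⟨⟨⟨by omega, (Nat.div_le_self _ _).trans hdD⟩, Nat.div_dvd_of_dvd (Nat.gcd_dvd_right b d)⟩, hlt, ?_⟩
  exact Nat.coprime_div_gcd_div_gcd hgp

/-- the mean square of the window sum over the fractions with denominator `q` -/
theorem fh_sq (H q : ℕ) (hq : 2 ≤ q) :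
    ∑ c ∈ (range q).filter (fun c => c.Coprime q), ‖FH H ((c : ℝ) / q)‖ ^ 2 ≤ q * H := by
  have hq0 : 0 < q := by omega
  have hqR : (0 : ℝ) < q := by exact_mod_cast hq0
  have h0 : ∀ t : ℝ, ((‖FH H t‖ ^ 2 : ℝ) : ℂ) = ∑ j ∈ range H, ∑ j' ∈ range H, ee ((((j : ℤ) - (j' : ℤ) : ℤ) : ℝ) * t) := by
    intro t
    push_cast
    rw [← Complex.mul_conj']
    unfold FH
    rw [map_sum, sum_mul_sum]
    refine sum_congr rfl fun j _ => sum_congr rfl fun j' _ => ?_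
    rw [ls_conj_ee, ← ls_ee_add]
    congr 1
    ring
  have h1 : ((∑ c ∈ range q, ‖FH H ((c : ℝ) / q)‖ ^ 2 : ℝ) : ℂ) =
      ((∑ j ∈ range H, (q : ℝ) * (((range H).filter (fun j' : ℕ => (q : ℤ) ∣ (j : ℤ) - j')).card : ℝ) : ℝ) : ℂ) := by
    rw [Complex.ofReal_sum, sum_congr rfl fun c _ => h0 _, sum_comm, Complex.ofReal_sum]
    refine sum_congr rfl fun j _ => ?_
    rw [sum_comm]
    have h2 : ∀ j' ∈ range H, ∑ c ∈ range q, ee ((((j : ℤ) - (j' : ℤ) : ℤ) : ℝ) * ((c : ℝ) / q)) =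
        if (q : ℤ) ∣ (j : ℤ) - j' then (q : ℂ) else 0 := by
      intro j' _
      rw [← orth q hq0 ((j : ℤ) - j')]
      refine sum_congr rfl fun c _ => ?_
      congr 1
      ring
    rw [sum_congr rfl h2, ← sum_filter, sum_const, nsmul_eq_mul]
    push_cast
    ring
  have h2 : ∑ c ∈ range q, ‖FH H ((c : ℝ) / q)‖ ^ 2 =
      ∑ j ∈ range H, (q : ℝ) * (((range H).filter (fun j' : ℕ => (q : ℤ) ∣ (j : ℤ) - j')).card : ℝ) := by
    exact_mod_cast h1
  have h3 : ∀ j ∈ range H, (((range H).filter (fun j' : ℕ => (q : ℤ) ∣ (j : ℤ) - j')).card : ℝ) ≤ H / q + 1 := by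
    intro j _
    have h4 := cnt1 H q j hq0
    have h5 : (range H).filter (fun j' : ℕ => (q : ℤ) ∣ (j : ℤ) - j') = (range H).filter (fun y => y ≡ j [MOD q]) := by
      refine filter_congr fun y _ => ?_
      exact (Nat.modEq_iff_dvd).symm
    rw [h5]
    have := (abs_le.1 h4).2
    linarith
  have h4 : ∑ c ∈ range q, ‖FH H ((c : ℝ) / q)‖ ^ 2 ≤ H * ((q : ℝ) * (H / q + 1)) := by
    rw [h2]
    refine (sum_le_sum fun j hj => mul_le_mul_of_nonneg_left (h3 j hj) hqR.le).trans ?_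
    rw [sum_const, card_range, nsmul_eq_mul]
  have h5 : ∑ c ∈ (range q).filter (fun c => c.Coprime q), ‖FH H ((c : ℝ) / q)‖ ^ 2 ≤
      ∑ c ∈ (range q).erase 0, ‖FH H ((c : ℝ) / q)‖ ^ 2 := by
    apply sum_le_sum_of_subset_of_nonneg _ fun _ _ _ => by positivity
    intro c hc
    rw [mem_filter] at hc
    rw [mem_erase]
    refine ⟨?_, hc.1⟩
    rintro rfl
    have := hc.2
    rw [Nat.coprime_zero_left] at this
    omega
  have h6 := Finset.add_sum_erase (range q) (fun c : ℕ => ‖FH H ((c : ℝ) / q)‖ ^ 2) (mem_range.2 hq0)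
  have h7 : ‖FH H (((0 : ℕ) : ℝ) / q)‖ ^ 2 = (H : ℝ) ^ 2 := by
    have : FH H (((0 : ℕ) : ℝ) / q) = H := by
      unfold FH
      simp [ls_ee_zero]
    rw [this, Complex.norm_natCast]
  simp only [h7] at h6
  have h8 : (H : ℝ) * ((q : ℝ) * (H / q + 1)) = (H : ℝ) ^ 2 + q * H := by
    field_simp
  linarith

/-- the mean square over all fractions -/
theorem sb_sq (Z D : ℕ) (BB : Finset ℕ) (hB : BB ⊆ range Z) :
    ∑ q ∈ Icc 2 D, ∑ c ∈ (range q).filter (fun c => c.Coprime q), ‖SB BB ((c : ℝ) / q)‖ ^ 2 ≤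
      6 * (Z + (D : ℝ) ^ 2) * BB.card := by
  classical
  have h1 := additive_large_sieve Z D (fun n => if n ∈ BB.image (fun y => y + 1) then 1 else 0)
  have hsub : BB.image (fun y => y + 1) ⊆ Icc 1 Z := by
    intro x hx
    rw [mem_image] at hx
    obtain ⟨y, hy, rfl⟩ := hx
    have := mem_range.1 (hB hy)
    rw [mem_Icc]
    omega
  have h2 : ∑ n ∈ Icc 1 Z, ‖(if n ∈ BB.image (fun y => y + 1) then (1 : ℂ) else 0)‖ ^ 2 = BB.card := by
    have : ∀ n ∈ Icc 1 Z, ‖(if n ∈ BB.image (fun y => y + 1) then (1 : ℂ) else 0)‖ ^ 2 =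
        if n ∈ BB.image (fun y => y + 1) then (1 : ℝ) else 0 := by
      intro n _
      split_ifs <;> simp
    rw [sum_congr rfl this, sum_ite_mem, inter_eq_right.2 hsub, sum_const, nsmul_eq_mul, mul_one,
      card_image_of_injective _ (fun a b h => by simpa using h)]
  rw [h2] at h1
  refine le_trans ?_ h1
  have h3 : Icc 2 D ⊆ Icc 1 D := Icc_subset_Icc_left (by norm_num)
  refine le_trans (sum_le_sum fun q _ => ?_) (sum_le_sum_of_subset_of_nonneg h3 fun _ _ _ =>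
    sum_nonneg fun _ _ => by positivity)
  refine le_of_eq (sum_congr rfl fun c _ => ?_)
  have h4 : ∑ n ∈ Icc 1 Z, (if n ∈ BB.image (fun y => y + 1) then (1 : ℂ) else 0) * ee (n * c / q) =
      ee ((c : ℝ) / q) * SB BB ((c : ℝ) / q) := by
    have : ∀ n ∈ Icc 1 Z, (if n ∈ BB.image (fun y => y + 1) then (1 : ℂ) else 0) * ee (n * c / q) =
        if n ∈ BB.image (fun y => y + 1) then ee (n * c / q) else 0 := by
      intro n _
      split_ifs <;> simp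
    rw [sum_congr rfl this, sum_ite_mem, inter_eq_right.2 hsub, sum_image (fun a _ b _ h => by simpa using h)]
    unfold SB
    rw [mul_sum]
    refine sum_congr rfl fun y _ => ?_
    rw [← ls_ee_add]
    congr 1
    push_cast
    ring
  rw [h4, norm_mul, ls_norm_ee, one_mul]

/-- **the variance over windows, summed over the moduli** -/
theorem badL (Z H D j : ℕ) (BB : Finset ℕ) (hB : BB ⊆ range Z) (a : ℕ → ℕ) :
    (∑ d ∈ Icc 1 D, ta d ^ j * |∑ y ∈ BB, dl H y d (a d)|) ^ 2 ≤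
      BB.card * (6 * (Z + (D : ℝ) ^ 2) * H * (1 + Real.log D) ^ (2 * 2 ^ j + 2 ^ (2 * j))) := by
  classical
  have hl := log1 D
  set L : ℝ := 1 + Real.log D with hL
  set φ : ℝ → ℝ := fun t => ‖FH H t‖ * ‖SB BB t‖ with hφ
  have hφ0 : ∀ t, 0 ≤ φ t := fun t => mul_nonneg (norm_nonneg _) (norm_nonneg _)
  set Φ : ℕ → ℝ := fun q => ∑ c ∈ (range q).filter (fun c => c.Coprime q), φ ((c : ℝ) / q) with hΦ
  have hΦ0 : ∀ q, 0 ≤ Φ q := fun q => sum_nonneg fun c _ => hφ0 _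
  have h1 : ∑ d ∈ Icc 1 D, ta d ^ j * |∑ y ∈ BB, dl H y d (a d)| ≤
      ∑ q ∈ Icc 2 D, L ^ 2 ^ j * (ta q ^ j / q * Φ q) := by
    calc ∑ d ∈ Icc 1 D, ta d ^ j * |∑ y ∈ BB, dl H y d (a d)| ≤
        ∑ d ∈ Icc 1 D, ta d ^ j / d * ∑ q ∈ (Icc 2 D).filter (fun q => q ∣ d), Φ q := by
          refine sum_le_sum fun d hd => ?_
          rw [mem_Icc] at hd
          have h2 := (fourier H d (a d) (by omega) BB).trans (mul_le_mul_of_nonneg_left
            (reduce φ hφ0 d D (by omega) hd.2) (by positivity))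
          calc ta d ^ j * |∑ y ∈ BB, dl H y d (a d)| ≤ ta d ^ j * (1 / (d : ℝ) *
              ∑ q ∈ (Icc 2 D).filter (fun q => q ∣ d), Φ q) :=
                mul_le_mul_of_nonneg_left h2 (pow_nonneg (ta_nonneg d) j)
            _ = _ := by ring
      _ = ∑ d ∈ Icc 1 D, ∑ q ∈ Icc 2 D, (if q ∣ d then ta d ^ j / d * Φ q else 0) := by
          refine sum_congr rfl fun d _ => ?_
          rw [mul_sum, sum_filter]
      _ = ∑ q ∈ Icc 2 D, (∑ d ∈ (Icc 1 D).filter (fun d => q ∣ d), ta d ^ j / d) * Φ q := by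
          rw [sum_comm]
          refine sum_congr rfl fun q _ => ?_
          rw [sum_mul, sum_filter]
      _ ≤ ∑ q ∈ Icc 2 D, L ^ 2 ^ j * (ta q ^ j / q * Φ q) := by
          refine sum_le_sum fun q hq => ?_
          rw [mem_Icc] at hq
          refine (mul_le_mul_of_nonneg_right (tauE j D q (by omega)) (hΦ0 q)).trans (le_of_eq ?_)
          rw [hL]
          ring
  have hn0 : 0 ≤ ∑ d ∈ Icc 1 D, ta d ^ j * |∑ y ∈ BB, dl H y d (a d)| :=
    sum_nonneg fun d _ => mul_nonneg (pow_nonneg (ta_nonneg d) j) (abs_nonneg _)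
  -- Cauchy-Schwarz
  set T : Finset (Σ _ : ℕ, ℕ) := (Icc 2 D).sigma (fun q => (range q).filter (fun c => c.Coprime q)) with hT
  have h2 : ∑ q ∈ Icc 2 D, ta q ^ j / q * Φ q =
      ∑ x ∈ T, (ta x.1 ^ j / x.1 * ‖FH H ((x.2 : ℝ) / x.1)‖) * ‖SB BB ((x.2 : ℝ) / x.1)‖ := by
    rw [hT, sum_sigma]
    refine sum_congr rfl fun q _ => ?_
    rw [hΦ, mul_sum]
    refine sum_congr rfl fun c _ => ?_
    rw [hφ]
    ring
  have h3 : (∑ q ∈ Icc 2 D, ta q ^ j / q * Φ q) ^ 2 ≤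
      (∑ x ∈ T, (ta x.1 ^ j / x.1 * ‖FH H ((x.2 : ℝ) / x.1)‖) ^ 2) *
        ∑ x ∈ T, ‖SB BB ((x.2 : ℝ) / x.1)‖ ^ 2 := by
    rw [h2]
    exact sum_mul_sq_le_sq_mul_sq _ _ _
  have h4 : ∑ x ∈ T, ‖SB BB ((x.2 : ℝ) / x.1)‖ ^ 2 ≤ 6 * (Z + (D : ℝ) ^ 2) * BB.card := by
    rw [hT, sum_sigma]
    exact sb_sq Z D BB hB
  have h5 : ∑ x ∈ T, (ta x.1 ^ j / x.1 * ‖FH H ((x.2 : ℝ) / x.1)‖) ^ 2 ≤ H * L ^ 2 ^ (2 * j) := by
    rw [hT, sum_sigma]
    calc ∑ q ∈ Icc 2 D, ∑ c ∈ (range q).filter (fun c => c.Coprime q),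
        (ta q ^ j / q * ‖FH H ((c : ℝ) / q)‖) ^ 2 =
        ∑ q ∈ Icc 2 D, (ta q ^ j / q) ^ 2 * ∑ c ∈ (range q).filter (fun c => c.Coprime q), ‖FH H ((c : ℝ) / q)‖ ^ 2 := by
          refine sum_congr rfl fun q _ => ?_
          rw [mul_sum]
          refine sum_congr rfl fun c _ => ?_
          rw [mul_pow]
      _ ≤ ∑ q ∈ Icc 2 D, (ta q ^ j / q) ^ 2 * (q * H) := by
          refine sum_le_sum fun q hq => ?_
          exact mul_le_mul_of_nonneg_left (fh_sq H q (mem_Icc.1 hq).1) (sq_nonneg _)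
      _ = ∑ q ∈ Icc 2 D, H * (ta q ^ (2 * j) / q) := by
          refine sum_congr rfl fun q hq => ?_
          have hq0 : (0 : ℝ) < q := by
            have := (mem_Icc.1 hq).1
            exact_mod_cast (by omega : 0 < q)
          rw [mul_comm 2 j, pow_mul]
          field_simp
      _ ≤ ∑ q ∈ Icc 1 D, H * (ta q ^ (2 * j) / q) := by
          apply sum_le_sum_of_subset_of_nonneg (Icc_subset_Icc_left (by norm_num))
          intro q _ _
          have := pow_nonneg (ta_nonneg q) (2 * j)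
          positivity
      _ ≤ H * L ^ 2 ^ (2 * j) := by
          rw [← mul_sum]
          exact mul_le_mul_of_nonneg_left (tauP (2 * j) D) (Nat.cast_nonneg _)
  have h6 : ∑ q ∈ Icc 2 D, L ^ 2 ^ j * (ta q ^ j / q * Φ q) = L ^ 2 ^ j * ∑ q ∈ Icc 2 D, ta q ^ j / q * Φ q := by
    rw [mul_sum]
  have h7 : 0 ≤ ∑ x ∈ T, ‖SB BB ((x.2 : ℝ) / x.1)‖ ^ 2 := sum_nonneg fun _ _ => by positivity
  calc (∑ d ∈ Icc 1 D, ta d ^ j * |∑ y ∈ BB, dl H y d (a d)|) ^ 2 ≤
      (L ^ 2 ^ j * ∑ q ∈ Icc 2 D, ta q ^ j / q * Φ q) ^ 2 := by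
        rw [← h6]
        exact pow_le_pow_left₀ hn0 h1 2
    _ = (L ^ 2 ^ j) ^ 2 * (∑ q ∈ Icc 2 D, ta q ^ j / q * Φ q) ^ 2 := by ring
    _ ≤ (L ^ 2 ^ j) ^ 2 * ((H * L ^ 2 ^ (2 * j)) * (6 * (Z + (D : ℝ) ^ 2) * BB.card)) := by
        apply mul_le_mul_of_nonneg_left _ (by positivity)
        refine h3.trans (mul_le_mul h5 h4 h7 (by positivity))
    _ = BB.card * (6 * (Z + (D : ℝ) ^ 2) * H * L ^ (2 * 2 ^ j + 2 ^ (2 * j))) := by
        rw [pow_add, mul_comm 2 (2 ^ j), pow_mul]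
        ring

end Pool.Agent.K3h21.LW
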