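import Pool.Agent.K3h21.AV.Win3
import Pool.Agent.K3h21.LW.Ls

set_option autoImplicit false
set_option linter.unusedSectionVars false
set_option linter.unusedVariables false

/-! Few windows contain few clusters of almost prime values (level of distribution from the large sieve). -/

namespace Pool.Agent.K3h21.LW

open Finset Filter
open Pool.Agent.K3h21.AV
open Pool.Agent.Y677.RSZ (rt Sys per_mod ev_log)
open Pool.Agent.W23.DC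

open Classical in
/-- the sum of the remainders over the moduli -/
theorem rem_few (Z H k g j W Y : ℕ) (θ P : ℝ) (BB : Finset ℕ) (hB : BB ⊆ range Z) (hj : 2 ^ k * g ≤ 2 ^ j)
    (M : ℕ → ℝ) (hM : ∀ d, 1 ≤ d → ∃ a < d, M d = |∑ y ∈ BB, dl H y d a|) (hP : 0 ≤ P)
    (h1 : 6 * ((Z : ℝ) + (⌊(Y : ℝ) ^ θ⌋₊ : ℝ) ^ 2) * (1 + Real.log ⌊(Y : ℝ) ^ θ⌋₊) ^ (2 * 2 ^ j + 2 ^ (2 * j)) * P ^ 2 ≤
      BB.card * H) :
    (∑ d ∈ dd W Y θ, (2 ^ k) ^ d.primeFactors.card * ((g : ℝ) ^ d.primeFactors.card * M d)) * P ≤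
      BB.card * H := by
  set D : ℕ := ⌊(Y : ℝ) ^ θ⌋₊ with hD
  choose! a ha1 ha2 using hM
  have h3 := badL Z H D j BB hB a
  have h4 : ∑ d ∈ dd W Y θ, (2 ^ k) ^ d.primeFactors.card * ((g : ℝ) ^ d.primeFactors.card * M d) ≤
      ∑ d ∈ Icc 1 D, ta d ^ j * |∑ y ∈ BB, dl H y d (a d)| := by
    have hsub : dd W Y θ ⊆ Icc 1 D := filter_subset _ _
    refine le_trans (sum_le_sum fun d hd => ?_) (sum_le_sum_of_subset_of_nonneg hsub fun d _ _ =>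
      mul_nonneg (pow_nonneg (ta_nonneg d) j) (abs_nonneg _))
    have hd1 := mem_Icc.1 (hsub hd)
    rw [ha2 d hd1.1, ← mul_assoc, ← mul_pow]
    apply mul_le_mul_of_nonneg_right _ (abs_nonneg _)
    have h5 : (2 : ℝ) ^ k * g ≤ 2 ^ j := by exact_mod_cast hj
    calc ((2 : ℝ) ^ k * g) ^ d.primeFactors.card ≤ (2 ^ j) ^ d.primeFactors.card :=
          pow_le_pow_left₀ (by positivity) h5 _
      _ = (2 ^ d.primeFactors.card) ^ j := by rw [← pow_mul, ← pow_mul, mul_comm]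
      _ ≤ ta d ^ j := by
          apply pow_le_pow_left₀ (by positivity)
          unfold ta
          exact_mod_cast Pool.Agent.H398R2.BV.two_pow_omega_le d (by omega)
  have hS0 : 0 ≤ ∑ d ∈ Icc 1 D, ta d ^ j * |∑ y ∈ BB, dl H y d (a d)| :=
    sum_nonneg fun d _ => mul_nonneg (pow_nonneg (ta_nonneg d) j) (abs_nonneg _)
  refine (mul_le_mul_of_nonneg_right h4 hP).trans ?_
  apply abs_le_of_sq_le_sq' _ (by positivity) |>.2
  rw [mul_pow]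
  have hc0 : (0 : ℝ) ≤ BB.card := Nat.cast_nonneg _
  have hH0 : (0 : ℝ) ≤ H := Nat.cast_nonneg _
  calc (∑ d ∈ Icc 1 D, ta d ^ j * |∑ y ∈ BB, dl H y d (a d)|) ^ 2 * P ^ 2 ≤
      (BB.card * (6 * (Z + (D : ℝ) ^ 2) * H * (1 + Real.log D) ^ (2 * 2 ^ j + 2 ^ (2 * j)))) * P ^ 2 :=
        mul_le_mul_of_nonneg_right h3 (sq_nonneg P)
    _ = BB.card * H * (6 * ((Z : ℝ) + (D : ℝ) ^ 2) * (1 + Real.log D) ^ (2 * 2 ^ j + 2 ^ (2 * j)) * P ^ 2) := by ring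
    _ ≤ BB.card * H * (BB.card * H) := mul_le_mul_of_nonneg_left h1 (by positivity)
    _ = (BB.card * (H : ℝ)) ^ 2 := by ring

open Classical in
/-- the bad windows -/
noncomputable def bdc (G : ℤ → ℤ) (W b H r m n₀ Z : ℕ) (w P : ℝ) {n : ℕ} (h : Fin n → ℕ) : Finset ℕ :=
  (range Z).filter (fun y => n₀ + 1 ≤ y ∧ (((range H).filter (fun κ => ∃ Hs : Finset (Fin n), Hs.card = m ∧
    ∀ i ∈ Hs, AP r w (G ((W * (y + κ) + (b + h i) : ℕ) : ℤ)).natAbs)).card : ℝ) < H / P)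

open Classical in
/-- few bad windows -/
theorem few_bad (g k r m A A₁ : ℕ) (τ θ B δ η : ℝ) (hδ : 0 < δ) (W Y₀ : ℕ) (hW : 0 < W)
    (hfin : ∀ Y : ℕ, Y₀ ≤ Y →
      ∀ G : ℤ → ℤ, (∀ p : ℕ, p.Prime → rt G p ≤ g) →
        Mer (pr Y δ (24 / 25 * τ)) (tt Y) (fun p => (rt G p : ℝ) / p) δ (24 / 25 * τ) η →
      ∀ (N : Finset ℕ) (ω : ℕ → ℝ) (val : ℕ → Fin (2 ^ k) → ℕ) (X₀ : ℝ) (e : ℕ → ℝ),
        (∀ K ∈ N, 0 ≤ ω K) → 0 ≤ X₀ → (∀ d, 0 ≤ e d) →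
        (∀ K ∈ N, ∀ i, val K i ≠ 0 ∧ (val K i : ℝ) ≤ (Y : ℝ) ^ B) →
        (∀ K ∈ N, ∀ p : ℕ, p.Prime → p ∣ W → ∀ i, ¬ p ∣ val K i) →
        (∀ K ∈ N, ∀ p : ℕ, p.Prime → ¬ p ∣ W → (p : ℝ) < (Y : ℝ) ^ τ → ∀ i j,
          p ∣ val K i → p ∣ val K j → i = j) →
        (∀ K ∈ N, ∀ p : ℕ, p.Prime → rt G p = 0 → ∀ i, ¬ p ∣ val K i) →
        (∀ d : ℕ, d ∈ dd W Y θ → ∀ σ : ℕ → Fin (2 ^ k),
          |∑ K ∈ N, ω K * (if ∀ p ∈ d.primeFactors, p ∣ val K (σ p) then 1 else 0) -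
            X₀ * ∏ p ∈ d.primeFactors, ((rt G p : ℝ) / p)| ≤ e d) →
        ∑ d ∈ dd W Y θ, (2 ^ k) ^ d.primeFactors.card * e d ≤ X₀ / Real.log Y ^ A →
        ∑ K ∈ sqb ((Y : ℝ) ^ (τ / 4)) ((Y : ℝ) ^ τ) N val, ω K ≤ X₀ / Real.log Y ^ A →
        X₀ / Real.log Y ^ A ≤ ∑ K ∈ gda r m ((Y : ℝ) ^ (τ / 4)) ((Y : ℝ) ^ δ) N val, ω K)
    (G : ℤ → ℤ) (hG : Sys g G) (n₀ : ℕ)
    (X : ℕ) (hX3 : 3 ≤ X) (hXY : Y₀ ≤ X)
    (hMe : Mer (pr X δ (24 / 25 * τ)) (tt X) (fun p => (rt G p : ℝ) / p) δ (24 / 25 * τ) η)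
    (b Z H j : ℕ) (h : Fin (2 ^ k) → ℕ) (hH : 1 ≤ H)
    (hb : ∀ p : ℕ, p.Prime → p ∣ W → ∀ i, ¬ (p : ℤ) ∣ G ((b + h i : ℕ) : ℤ))
    (hUU : ∀ p : ℕ, p.Prime → ¬ p ∣ W → ∀ x : ℕ, ∀ i j, (p : ℤ) ∣ G ((x + h i : ℕ) : ℤ) →
      (p : ℤ) ∣ G ((x + h j : ℕ) : ℤ) → i = j)
    (hval : ∀ y < Z, n₀ + 1 ≤ y → ∀ κ < H, ∀ i, G ((W * (y + κ) + (b + h i) : ℕ) : ℤ) ≠ 0 ∧
      ((G ((W * (y + κ) + (b + h i) : ℕ) : ℤ)).natAbs : ℝ) ≤ (X : ℝ) ^ B)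
    (hj : 2 ^ k * g ≤ 2 ^ j) (b0 : ℝ) (hb0 : 0 < b0)
    (h1 : 6 * ((Z : ℝ) + (⌊(X : ℝ) ^ θ⌋₊ : ℝ) ^ 2) * (1 + Real.log ⌊(X : ℝ) ^ θ⌋₊) ^ (2 * 2 ^ j + 2 ^ (2 * j)) *
      (Real.log X ^ A) ^ 2 ≤ b0 * H)
    (h5 : ∀ BB ⊆ range Z, b0 ≤ BB.card → (∀ y ∈ BB, n₀ + 1 ≤ y) →
      ((sqb ((X : ℝ) ^ (τ / 4)) ((X : ℝ) ^ τ) (pn H BB) (vl G W b H h)).card : ℝ) * Real.log X ^ A ≤ BB.card * H) :
    ((bdc G W b H r m n₀ Z ((X : ℝ) ^ (τ / 4)) (Real.log X ^ A) h).card : ℝ) < b0 := by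
  set BB := bdc G W b H r m n₀ Z ((X : ℝ) ^ (τ / 4)) (Real.log X ^ A) h with hBB
  by_contra hcon
  push Not at hcon
  have hXr : (3 : ℝ) ≤ X := by exact_mod_cast hX3
  have hlog : 0 < Real.log X := Real.log_pos (by linarith)
  have hlA : 0 < Real.log X ^ A := by positivity
  have hHr : (1 : ℝ) ≤ H := by exact_mod_cast hH
  have hBZ : BB ⊆ range Z := filter_subset _ _
  have hBm : ∀ y ∈ BB, y < Z ∧ n₀ + 1 ≤ y := by
    intro y hy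
    rw [hBB] at hy
    unfold bdc at hy
    rw [mem_filter, mem_range] at hy
    exact ⟨hy.1, hy.2.1⟩
  have hBc : (0 : ℝ) < BB.card := lt_of_lt_of_le hb0 hcon
  -- the maximal remainders
  have hmax : ∀ d : ℕ, 1 ≤ d → ∃ a < d, ∀ a' < d, |∑ y ∈ BB, dl H y d a'| ≤ |∑ y ∈ BB, dl H y d a| := by
    intro d hd
    obtain ⟨a, ha1, ha2⟩ := exists_max_image (range d) (fun a => |∑ y ∈ BB, dl H y d a|)
      ⟨0, mem_range.2 hd⟩
    exact ⟨a, mem_range.1 ha1, fun a' ha' => ha2 a' (mem_range.2 ha')⟩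
  choose! a ha1 ha2 using hmax
  set M : ℕ → ℝ := fun d => |∑ y ∈ BB, dl H y d (a d)| with hM
  have key := hfin X hXY G (fun p hp => (hG.root p hp).1) hMe (pn H BB) (fun _ => 1) (vl G W b H h)
    (BB.card * H) (fun d => (g : ℝ) ^ d.primeFactors.card * M d) (fun _ _ => zero_le_one)
    (by positivity) (fun d => mul_nonneg (by positivity) (abs_nonneg _))
    (fun K hK i => by
      obtain ⟨b1, b2⟩ := pn_mem H BB K hK
      obtain ⟨b3, b4⟩ := hBm _ b1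
      obtain ⟨b5, b6⟩ := hval _ b3 b4 _ b2 i
      exact ⟨Int.natAbs_ne_zero.2 b5, b6⟩)
    (fun K hK p hp hpW i hd => by
      unfold vl at hd
      refine hb p hp hpW i ((per_mod hG.per hp _ _ ?_).1 (Int.natCast_dvd.2 hd))
      have : W * (K / H + K % H) ≡ 0 [MOD p] := (Nat.modEq_zero_iff_dvd).2 (hpW.mul_right _)
      simpa using this.add_right (b + h i))
    (fun K hK p hp hpW _ i j hi hj => by
      unfold vl at hi hj
      refine hUU p hp hpW (W * (K / H + K % H) + b) i j ?_ ?_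
      · rw [add_assoc]
        exact Int.natCast_dvd.2 hi
      · rw [add_assoc]
        exact Int.natCast_dvd.2 hj)
    (fun K hK p hp h0 i hd => by
      unfold vl at hd
      exact Pool.Agent.R498.MT.rt_zero hG.per p hp h0 _ (Int.natCast_dvd.2 hd))
    (fun d hd σ => by
      have hd' := hd
      unfold dd at hd'
      rw [mem_filter, mem_Icc] at hd'
      have h6 := key_count G hG.per W b h BB H g (fun p hp => (hG.root p hp).1) d hd'.2.1 hd'.2.2 σ (M d)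
        (fun a' ha' => ha2 d hd'.1.1 a' ha')
      have h7 : ∑ K ∈ pn H BB, (1 : ℝ) * (if ∀ p ∈ d.primeFactors, p ∣ vl G W b H h K (σ p) then 1 else 0) =
          ∑ y ∈ BB, ∑ κ ∈ range H, (if ∀ p ∈ d.primeFactors,
            (p : ℤ) ∣ G ((W * (y + κ) + (b + h (σ p)) : ℕ) : ℤ) then (1 : ℝ) else 0) := by
        rw [← pn_sum H BB (fun y κ => (if ∀ p ∈ d.primeFactors,
            (p : ℤ) ∣ G ((W * (y + κ) + (b + h (σ p)) : ℕ) : ℤ) then (1 : ℝ) else 0))]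
        refine sum_congr rfl fun K _ => ?_
        rw [one_mul]
        apply if_congr _ rfl rfl
        refine forall₂_congr fun p _ => ?_
        unfold vl
        exact Int.natCast_dvd.symm
      rw [h7]
      exact h6)
    (by
      rw [le_div_iff₀ hlA]
      refine rem_few Z H k g j W X θ (Real.log X ^ A) BB hBZ hj M (fun d hd => ⟨a d, ha1 d hd, rfl⟩) hlA.le
        (h1.trans ?_)
      exact mul_le_mul_of_nonneg_right hcon (by positivity))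
    (by
      rw [sum_const, nsmul_eq_mul, mul_one, le_div_iff₀ hlA]
      exact h5 BB hBZ hcon fun y hy => (hBm y hy).2)
  have hle : ∑ K ∈ gda r m ((X : ℝ) ^ (τ / 4)) ((X : ℝ) ^ δ) (pn H BB) (vl G W b H h), (1 : ℝ) ≤
      ∑ y ∈ BB, ((((range H).filter (fun κ => ∃ Hs : Finset (Fin (2 ^ k)), Hs.card = m ∧
        ∀ i ∈ Hs, AP r ((X : ℝ) ^ (τ / 4)) (G ((W * (y + κ) + (b + h i) : ℕ) : ℤ)).natAbs)).card : ℕ) : ℝ) := by
    have h6 := pn_sum H BB (fun y κ => if ∃ Hs : Finset (Fin (2 ^ k)), Hs.card = m ∧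
        ∀ i ∈ Hs, AP r ((X : ℝ) ^ (τ / 4)) (G ((W * (y + κ) + (b + h i) : ℕ) : ℤ)).natAbs then (1 : ℝ) else 0)
    have h7 : ∑ y ∈ BB, ((((range H).filter (fun κ => ∃ Hs : Finset (Fin (2 ^ k)), Hs.card = m ∧
        ∀ i ∈ Hs, AP r ((X : ℝ) ^ (τ / 4)) (G ((W * (y + κ) + (b + h i) : ℕ) : ℤ)).natAbs)).card : ℕ) : ℝ) =
        ∑ y ∈ BB, ∑ κ ∈ range H, if ∃ Hs : Finset (Fin (2 ^ k)), Hs.card = m ∧
        ∀ i ∈ Hs, AP r ((X : ℝ) ^ (τ / 4)) (G ((W * (y + κ) + (b + h i) : ℕ) : ℤ)).natAbs then (1 : ℝ) else 0 := by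
      refine sum_congr rfl fun y _ => ?_
      rw [sum_boole]
    rw [h7, ← h6]
    have h8 : gda r m ((X : ℝ) ^ (τ / 4)) ((X : ℝ) ^ δ) (pn H BB) (vl G W b H h) ⊆ pn H BB := filter_subset _ _
    refine le_trans (sum_le_sum fun K hK => ?_) (sum_le_sum_of_subset_of_nonneg h8 fun K _ _ => ?_)
    · unfold gda at hK
      rw [mem_filter] at hK
      obtain ⟨hK1, ⟨Hs, hHs, hAP⟩, -⟩ := hK
      rw [if_pos ⟨Hs, hHs, fun i hi => hAP i hi⟩]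
    · split_ifs <;> norm_num
  have hlt : ∑ y ∈ BB, ((((range H).filter (fun κ => ∃ Hs : Finset (Fin (2 ^ k)), Hs.card = m ∧
        ∀ i ∈ Hs, AP r ((X : ℝ) ^ (τ / 4)) (G ((W * (y + κ) + (b + h i) : ℕ) : ℤ)).natAbs)).card : ℕ) : ℝ) <
      ∑ y ∈ BB, (H : ℝ) / Real.log X ^ A := by
    apply sum_lt_sum_of_nonempty
    · rw [← card_pos]
      exact_mod_cast hBc
    · intro y hy
      rw [hBB] at hy
      unfold bdc at hy
      rw [mem_filter] at hy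
      exact hy.2.2
  rw [sum_const, nsmul_eq_mul] at hlt
  have h9 : (BB.card : ℝ) * H / Real.log X ^ A = BB.card * (H / Real.log X ^ A) := by ring
  rw [h9] at key
  linarith

end Pool.Agent.K3h21.LW
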