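import Pool.Agent.K3h21.LW.Few
import Pool.Agent.K3h31.WL.Sqg

set_option autoImplicit false
set_option linter.unusedSectionVars false
set_option linter.unusedVariables false

/-! Numbers with square factors in the windows of a set of windows (second moment and large squares: K3h31.WL). -/

namespace Pool.Agent.K3h21.LW

open Finset Filter
open Pool.Agent.K3h21.AV
open Pool.Agent.K3h31.WL (mul mul_le sq_moment big_sq inv_sq_tail)
open Pool.Agent.Y677.RSZ (rt Sys per_mod ev_log)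

open Classical in
theorem sq_set (X H a : ℕ) (P : ℝ) (hX : 1 ≤ X) (hH : 1 ≤ H) (hHX : H ≤ X) (hP : 1 ≤ P) (ha : 6 * P ≤ a)
    (hQ : 6 * P * (1 + Real.log (2 * X)) ≤ Real.sqrt (12 * P * X / H)) (BB : Finset ℕ) (hB : BB ⊆ Icc 1 X)
    (hb : 270 * P ^ 3 * X / H ≤ BB.card) :
    ∑ x ∈ BB, (((Icc 1 H).filter (fun j => ∃ q : ℕ, q.Prime ∧ a < q ∧ q ^ 2 ∣ x + j)).card : ℝ) ≤
      BB.card * H / P := by
  have hXr : (1 : ℝ) ≤ X := by exact_mod_cast hX
  have hHr : (1 : ℝ) ≤ H := by exact_mod_cast hH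
  have hH0 : (0 : ℝ) < H := by linarith
  have hX0 : (0 : ℝ) < X := by linarith
  have hP0 : 0 < P := by linarith
  set Q : ℝ := Real.sqrt (12 * P * X / H) with hQdef
  have hQ2 : Q ^ 2 = 12 * P * X / H := Real.sq_sqrt (by positivity)
  have hQ0 : 0 < Q := Real.sqrt_pos.2 (by positivity)
  have hlog0 : 0 ≤ Real.log (2 * X) := Real.log_nonneg (by linarith)
  have ha0 : (6 : ℝ) ≤ a := by linarith
  have ha1 : 1 ≤ a := by
    have : (1 : ℝ) ≤ a := by linarith
    exact_mod_cast this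
  set B1 : Finset ℕ := (Ioc a H).filter (fun q => q ^ 2 ≤ H) with hB1
  set B2 : Finset ℕ := (range (⌊Q⌋₊ + 1)).filter (fun q => q.Prime ∧ H < q ^ 2) with hB2
  have hinc : ∀ x ∈ BB, (((Icc 1 H).filter (fun j => ∃ q : ℕ, q.Prime ∧ a < q ∧ q ^ 2 ∣ x + j)).card : ℝ) ≤
      2 * (H / (3 * P)) + ∑ q ∈ B2, (mul (q ^ 2) H x : ℝ) := by
    intro x hx
    have hx1 := mem_Icc.1 (hB hx)
    have hsub : (Icc 1 H).filter (fun j => ∃ q : ℕ, q.Prime ∧ a < q ∧ q ^ 2 ∣ x + j) ⊆
        (B1.biUnion (fun q => (Icc 1 H).filter (fun j => q ^ 2 ∣ x + j))) ∪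
        ((Icc 1 H).filter (fun j => ∃ q : ℕ, Q < q ∧ q ^ 2 ∣ x + j)) ∪
        (B2.biUnion (fun q => (Icc 1 H).filter (fun j => q ^ 2 ∣ x + j))) := by
      intro j hj
      rw [mem_filter] at hj
      obtain ⟨h1, q, hq, haq, hqd⟩ := hj
      rw [mem_union, mem_union]
      by_cases h2 : q ^ 2 ≤ H
      · left; left
        rw [mem_biUnion]
        refine ⟨q, mem_filter.2 ⟨mem_Ioc.2 ⟨haq, ?_⟩, h2⟩, mem_filter.2 ⟨h1, hqd⟩⟩
        nlinarith [hq.one_lt]
      · by_cases h3 : (q : ℝ) ≤ Q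
        · right
          rw [mem_biUnion]
          refine ⟨q, mem_filter.2 ⟨mem_range.2 ?_, hq, not_le.1 h2⟩, mem_filter.2 ⟨h1, hqd⟩⟩
          have := Nat.le_floor h3
          omega
        · left; right
          rw [mem_filter]
          exact ⟨h1, q, not_le.1 h3, hqd⟩
    have hc := (card_le_card hsub).trans ((card_union_le _ _).trans (Nat.add_le_add_right (card_union_le _ _) _))
    have hA : ((B1.biUnion (fun q => (Icc 1 H).filter (fun j => q ^ 2 ∣ x + j))).card : ℝ) ≤ H / (3 * P) := by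
      have h1 : ((B1.biUnion (fun q => (Icc 1 H).filter (fun j => q ^ 2 ∣ x + j))).card : ℝ) ≤
          ∑ q ∈ B1, (mul (q ^ 2) H x : ℝ) := by
        have := card_biUnion_le (s := B1) (t := fun q => (Icc 1 H).filter (fun j => q ^ 2 ∣ x + j))
        unfold mul
        exact_mod_cast this
      refine h1.trans ?_
      have h2 : ∀ q ∈ B1, (mul (q ^ 2) H x : ℝ) ≤ 2 * H * (1 / (q : ℝ) ^ 2) := by
        intro q hq
        rw [hB1, mem_filter, mem_Ioc] at hq
        have hq0 : 0 < q := by omega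
        have hq0r : (0 : ℝ) < q := by exact_mod_cast hq0
        have h3 := mul_le (q ^ 2) H x (by positivity)
        have h4 : (1 : ℝ) ≤ (H : ℝ) / (q : ℝ) ^ 2 := by
          rw [le_div_iff₀ (by positivity), one_mul]
          exact_mod_cast hq.2
        push_cast at h3
        calc (mul (q ^ 2) H x : ℝ) ≤ (H : ℝ) / (q : ℝ) ^ 2 + 1 := h3
          _ ≤ (H : ℝ) / (q : ℝ) ^ 2 + (H : ℝ) / (q : ℝ) ^ 2 := by linarith
          _ = _ := by ring
      refine (sum_le_sum h2).trans ?_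
      rw [← mul_sum]
      have h3 := inv_sq_tail B1 a ha1 (fun q hq => by
        rw [hB1, mem_filter, mem_Ioc] at hq
        exact hq.1.1)
      calc 2 * (H : ℝ) * ∑ q ∈ B1, 1 / (q : ℝ) ^ 2 ≤ 2 * H * (1 / (a : ℝ)) :=
            mul_le_mul_of_nonneg_left h3 (by positivity)
        _ ≤ 2 * H * (1 / (6 * P)) := by
            apply mul_le_mul_of_nonneg_left _ (by positivity)
            exact one_div_le_one_div_of_le (by positivity) ha
        _ = H / (3 * P) := by
            field_simp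
            ring
    have hC : (((Icc 1 H).filter (fun j => ∃ q : ℕ, Q < q ∧ q ^ 2 ∣ x + j)).card : ℝ) ≤ H / (3 * P) := by
      refine (big_sq X H x hx1.2 hHX Q hQ0 hX).trans ?_
      have h1 : 2 * (X : ℝ) / Q ^ 2 = H / (6 * P) := by
        rw [hQ2]
        field_simp
        ring
      have h2 : (H : ℝ) / Q * (1 + Real.log (2 * X)) ≤ H / (6 * P) := by
        rw [div_mul_eq_mul_div, div_le_div_iff₀ hQ0 (by positivity)]
        calc (H : ℝ) * (1 + Real.log (2 * X)) * (6 * P) = H * (6 * P * (1 + Real.log (2 * X))) := by ring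
          _ ≤ H * Q := mul_le_mul_of_nonneg_left hQ hH0.le
      have h3 : (H : ℝ) / (6 * P) + H / (6 * P) = H / (3 * P) := by
        field_simp
        ring
      linarith
    have hD : ((B2.biUnion (fun q => (Icc 1 H).filter (fun j => q ^ 2 ∣ x + j))).card : ℝ) ≤
        ∑ q ∈ B2, (mul (q ^ 2) H x : ℝ) := by
      have := card_biUnion_le (s := B2) (t := fun q => (Icc 1 H).filter (fun j => q ^ 2 ∣ x + j))
      unfold mul
      exact_mod_cast this
    have hcr : (((Icc 1 H).filter (fun j => ∃ q : ℕ, q.Prime ∧ a < q ∧ q ^ 2 ∣ x + j)).card : ℝ) ≤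
        ((B1.biUnion (fun q => (Icc 1 H).filter (fun j => q ^ 2 ∣ x + j))).card : ℝ) +
        (((Icc 1 H).filter (fun j => ∃ q : ℕ, Q < q ∧ q ^ 2 ∣ x + j)).card : ℝ) +
        ((B2.biUnion (fun q => (Icc 1 H).filter (fun j => q ^ 2 ∣ x + j))).card : ℝ) := by exact_mod_cast hc
    linarith
  have hBc : (B2.card : ℝ) ≤ Q := by
    have h1 : B2 ⊆ Ioc 0 ⌊Q⌋₊ := by
      intro q hq
      rw [hB2, mem_filter, mem_range] at hq
      rw [mem_Ioc]
      exact ⟨hq.2.1.pos, by omega⟩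
    have h2 := card_le_card h1
    rw [Nat.card_Ioc] at h2
    have h3 : (B2.card : ℝ) ≤ (⌊Q⌋₊ : ℝ) := by exact_mod_cast h2
    exact h3.trans (Nat.floor_le hQ0.le)
  have hmom := sq_moment B2 (fun q hq => by
    rw [hB2, mem_filter] at hq
    exact hq.2.1) H X hH (fun q hq => by
    rw [hB2, mem_filter] at hq
    exact hq.2.2)
  have hmom2 : ∑ x ∈ Icc 1 X, (∑ q ∈ B2, (mul (q ^ 2) H x : ℝ)) ^ 2 ≤ 30 * P * X * H := by
    refine hmom.trans ?_
    have h1 : (B2.card : ℝ) ^ 2 ≤ 12 * P * X / H := by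
      rw [← hQ2]
      exact pow_le_pow_left₀ (Nat.cast_nonneg _) hBc 2
    have h2 : 2 * (H : ℝ) ^ 2 * (B2.card : ℝ) ^ 2 ≤ 2 * (H : ℝ) ^ 2 * (12 * P * X / H) :=
      mul_le_mul_of_nonneg_left h1 (by positivity)
    have h3 : 2 * (H : ℝ) ^ 2 * (12 * P * X / H) = 24 * P * X * H := by
      field_simp
      ring
    have h4 : 6 * (H : ℝ) * X ≤ 6 * P * X * H := by
      have h6 : (0 : ℝ) ≤ H * X := by positivity
      nlinarith
    linarith
  have hcs : (∑ x ∈ BB, ∑ q ∈ B2, (mul (q ^ 2) H x : ℝ)) ^ 2 ≤ (BB.card * H / (3 * P)) ^ 2 := by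
    have h1 := sq_sum_le_card_mul_sum_sq (s := BB) (f := fun x => ∑ q ∈ B2, (mul (q ^ 2) H x : ℝ))
    have h2 : ∑ x ∈ BB, (∑ q ∈ B2, (mul (q ^ 2) H x : ℝ)) ^ 2 ≤ 30 * P * X * H :=
      (sum_le_sum_of_subset_of_nonneg hB fun _ _ _ => sq_nonneg _).trans hmom2
    have h3 : 270 * P ^ 3 * X ≤ BB.card * H := (div_le_iff₀ hH0).1 hb
    refine h1.trans ?_
    calc (BB.card : ℝ) * ∑ x ∈ BB, (∑ q ∈ B2, (mul (q ^ 2) H x : ℝ)) ^ 2 ≤ BB.card * (30 * P * X * H) :=
          mul_le_mul_of_nonneg_left h2 (Nat.cast_nonneg _)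
      _ = BB.card * H * (270 * P ^ 3 * X) / (9 * P ^ 2) := by
          field_simp
          ring
      _ ≤ BB.card * H * (BB.card * H) / (9 * P ^ 2) := by
          apply div_le_div_of_nonneg_right _ (by positivity)
          exact mul_le_mul_of_nonneg_left h3 (by positivity)
      _ = (BB.card * H / (3 * P)) ^ 2 := by
          field_simp
          ring
  have hcs2 : ∑ x ∈ BB, ∑ q ∈ B2, (mul (q ^ 2) H x : ℝ) ≤ BB.card * H / (3 * P) :=
    le_of_sq_le_sq hcs (by positivity)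
  calc ∑ x ∈ BB, (((Icc 1 H).filter (fun j => ∃ q : ℕ, q.Prime ∧ a < q ∧ q ^ 2 ∣ x + j)).card : ℝ) ≤
      ∑ x ∈ BB, (2 * (H / (3 * P)) + ∑ q ∈ B2, (mul (q ^ 2) H x : ℝ)) := sum_le_sum hinc
    _ = BB.card * (2 * (H / (3 * P))) + ∑ x ∈ BB, ∑ q ∈ B2, (mul (q ^ 2) H x : ℝ) := by
        rw [sum_add_distrib, sum_const, nsmul_eq_mul]
    _ ≤ BB.card * (2 * (H / (3 * P))) + BB.card * H / (3 * P) := by linarith
    _ = BB.card * H / P := by
        field_simp
        ring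

open Classical in
theorem sq_lin (n₀ : ℕ) (hn₀ : 1 ≤ n₀) (τ : ℝ) (hτ : 0 < τ) (k A W b : ℕ) (h : Fin (2 ^ k) → ℕ) (hW : 0 < W) :
    ∃ C1 : ℕ, ∀ᶠ X : ℕ in atTop, ∀ H Z : ℕ, 1 ≤ H →
      H ^ 2 ≤ X → (∀ y < Z, ∀ κ < H, ∀ i, W * (y + κ) + (b + h i) + 1 ≤ 2 * X) →
      ∀ BB ⊆ range Z, (∀ y ∈ BB, n₀ + 1 ≤ y) → (X : ℝ) * Real.log X ^ C1 / H + 0 ≤ BB.card →
      ((sqb ((X : ℝ) ^ (τ / 4)) ((X : ℝ) ^ τ) (pn H BB) (vl (fun n => n) W b H h)).card : ℝ) * Real.log X ^ A ≤
        BB.card * H := by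
  refine ⟨3 * A + 1, ?_⟩
  have hT := tendsto_natCast_atTop_atTop (R := ℝ)
  have v1 : ∀ᶠ X : ℕ in atTop, (540 * (2 ^ k) ^ 3 * W ^ 2 + 4 : ℝ) ≤ Real.log (X : ℝ) :=
    (Real.tendsto_log_atTop.comp hT).eventually_ge_atTop _
  have v3 : ∀ᶠ X : ℕ in atTop, (2 : ℝ) ≤ (X : ℝ) ^ (τ / 4) :=
    ((tendsto_rpow_atTop (by linarith)).comp hT).eventually_ge_atTop _
  filter_upwards [eventually_ge_atTop 3, v1, v3, eventually_ge_atTop (W ^ 2),
    ev_log A (12 * (2 ^ k * W)) (τ / 4) (by linarith),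
    ev_log (A + 1) (24 * (2 ^ k * W)) (1 / 4) (by norm_num)] with X a1 a2 a3 a4 a5 a6
  intro H Z hH hHX harg BB hBB hn hcard
  rw [add_zero] at hcard
  have hXr : (3 : ℝ) ≤ X := by exact_mod_cast a1
  have hX0 : (0 : ℝ) < X := by linarith
  have hX1 : (1 : ℝ) ≤ X := by linarith
  have hHr : (1 : ℝ) ≤ H := by exact_mod_cast hH
  have hH0 : (0 : ℝ) < H := by linarith
  have hWr : (1 : ℝ) ≤ W := by exact_mod_cast hW
  set L : ℝ := Real.log X with hL
  have c1 : (0 : ℝ) ≤ 540 * (2 ^ k) ^ 3 * W ^ 2 := by positivity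
  have hL4 : 4 ≤ L := by linarith
  have hL1 : 1 ≤ L := by linarith
  have hk1 : (1 : ℝ) ≤ 2 ^ k := one_le_pow₀ (by norm_num)
  set P : ℝ := 2 ^ k * W * L ^ A with hPdef
  have hLA : 1 ≤ L ^ A := one_le_pow₀ hL1
  have hkW : (1 : ℝ) ≤ 2 ^ k * W := one_le_mul_of_one_le_of_one_le hk1 hWr
  have hP1 : 1 ≤ P := one_le_mul_of_one_le_of_one_le hkW hLA
  set w : ℝ := (X : ℝ) ^ (τ / 4) with hw
  set a : ℕ := ⌈w⌉₊ - 1 with ha
  have hw1 : 1 ≤ ⌈w⌉₊ := Nat.one_le_ceil_iff.2 (by linarith)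
  have haw : w - 1 ≤ a := by
    have h1 : (a : ℝ) = (⌈w⌉₊ : ℝ) - 1 := by
      rw [ha]
      push_cast [hw1]
      ring
    rw [h1]
    linarith [Nat.le_ceil w]
  have ha6 : 6 * P ≤ a := by
    refine le_trans ?_ haw
    have h1 : 12 * P ≤ w := by
      rw [hPdef]
      calc 12 * (2 ^ k * W * L ^ A) = 12 * (2 ^ k * W) * L ^ A := by ring
        _ ≤ w := a5
    linarith
  have hWH : W * H ≤ 2 * X := by
    by_contra hcon
    push Not at hcon
    have h1 : (W * H) ^ 2 ≤ X * X := by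
      rw [mul_pow]
      exact Nat.mul_le_mul a4 hHX
    rw [← pow_two] at h1
    have h2 := Nat.pow_lt_pow_left (show X < W * H by omega) (n := 2) (by norm_num)
    omega
  have hX2 : (X : ℝ) ^ ((1 : ℝ) / 4) * (X : ℝ) ^ ((1 : ℝ) / 4) = (X : ℝ) ^ ((1 : ℝ) / 2) := by
    rw [← Real.rpow_add hX0]
    norm_num
  have hsqX : (X : ℝ) ^ ((1 : ℝ) / 2) * (X : ℝ) ^ ((1 : ℝ) / 2) = X := by
    rw [← Real.rpow_add hX0]
    norm_num
  have hHs : (H : ℝ) ≤ (X : ℝ) ^ ((1 : ℝ) / 2) := by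
    rw [← Real.sqrt_eq_rpow]
    exact Real.le_sqrt_of_sq_le (by exact_mod_cast hHX)
  have hQ : 6 * P * (1 + Real.log (2 * ((2 * X : ℕ) : ℝ))) ≤
      Real.sqrt (12 * P * ((2 * X : ℕ) : ℝ) / ((W * H : ℕ) : ℝ)) := by
    have h1 : Real.log (2 * ((2 * X : ℕ) : ℝ)) ≤ 3 * L := by
      have e1 : (2 * ((2 * X : ℕ) : ℝ)) ≤ (X : ℝ) ^ 3 := by
        push_cast
        have : (9 : ℝ) ≤ (X : ℝ) ^ 2 := by nlinarith
        nlinarith
      have e2 := Real.log_le_log (by push_cast; positivity) e1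
      rw [Real.log_pow] at e2
      push_cast at e2 ⊢
      exact e2
    have h2 : 6 * P * (1 + Real.log (2 * ((2 * X : ℕ) : ℝ))) ≤ (X : ℝ) ^ ((1 : ℝ) / 4) := by
      calc 6 * P * (1 + Real.log (2 * ((2 * X : ℕ) : ℝ))) ≤ 6 * P * (4 * L) := by
            apply mul_le_mul_of_nonneg_left _ (by positivity)
            linarith
        _ = 24 * (2 ^ k * W) * L ^ (A + 1) := by
            rw [hPdef, pow_succ]
            ring
        _ ≤ _ := a6
    refine h2.trans (Real.le_sqrt_of_sq_le ?_)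
    rw [pow_two, hX2]
    push_cast
    rw [le_div_iff₀ (by positivity)]
    calc (X : ℝ) ^ ((1 : ℝ) / 2) * (W * H) ≤ (X : ℝ) ^ ((1 : ℝ) / 2) * (W * (X : ℝ) ^ ((1 : ℝ) / 2)) := by
          apply mul_le_mul_of_nonneg_left _ (by positivity)
          exact mul_le_mul_of_nonneg_left hHs (by positivity)
      _ = W * ((X : ℝ) ^ ((1 : ℝ) / 2) * (X : ℝ) ^ ((1 : ℝ) / 2)) := by ring
      _ = W * X := by rw [hsqX]
      _ ≤ P * X := by
          apply mul_le_mul_of_nonneg_right _ hX0.le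
          rw [hPdef]
          calc (W : ℝ) = 1 * W * 1 := by ring
            _ ≤ 2 ^ k * W * L ^ A := by
                apply mul_le_mul _ hLA (by norm_num) (by positivity)
                exact mul_le_mul_of_nonneg_right hk1 (by positivity)
      _ ≤ 12 * P * (2 * X) := by
          have : 0 ≤ P * X := by positivity
          linarith
  -- the number of bad pairs for one shift
  have hone : ∀ i : Fin (2 ^ k), ∑ y ∈ BB, (((range H).filter (fun κ => ∃ q : ℕ, q.Prime ∧ a < q ∧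
      q ^ 2 ∣ W * (y + κ) + (b + h i))).card : ℝ) ≤ BB.card * ((W * H : ℕ) : ℝ) / P := by
    intro i
    set f : ℕ → ℕ := fun y => W * y + (b + h i) - 1 with hf
    have hy2 : ∀ y ∈ BB, 1 ≤ W * y - 1 := by
      intro y hy
      have h1 := hn y hy
      have h2 : y ≤ W * y := Nat.le_mul_of_pos_left _ hW
      omega
    have hinj : Set.InjOn f (BB : Set ℕ) := by
      intro y hy y' hy' hyy
      have h1 := hy2 y hy
      have h2 := hy2 y' hy'
      simp only [hf] at hyy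
      have h3 : W * y = W * y' := by omega
      exact Nat.eq_of_mul_eq_mul_left hW h3
    have himg : BB.image f ⊆ Icc 1 (2 * X) := by
      intro x hx
      rw [mem_image] at hx
      obtain ⟨y, hy, rfl⟩ := hx
      have h1 := hy2 y hy
      have h2 := harg y (mem_range.1 (hBB hy)) 0 (by omega) i
      rw [add_zero] at h2
      simp only [hf]
      rw [mem_Icc]
      omega
    have hcd : (BB.image f).card = BB.card := card_image_of_injOn hinj
    have key := sq_set (2 * X) (W * H) a P (by omega) (Nat.mul_pos hW (by omega)) hWH hP1 ha6 hQ (BB.image f) himg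
      (by
        rw [hcd]
        refine le_trans ?_ hcard
        push_cast
        have e1 : 270 * P ^ 3 * (2 * (X : ℝ)) / (W * H) = (540 * (2 ^ k) ^ 3 * W ^ 2) * (X * L ^ (3 * A) / H) := by
          rw [hPdef, mul_comm 3 A, pow_mul]
          field_simp
          ring
        rw [e1]
        calc (540 * (2 ^ k) ^ 3 * (W : ℝ) ^ 2) * (X * L ^ (3 * A) / H) ≤ L * (X * L ^ (3 * A) / H) := by
              apply mul_le_mul_of_nonneg_right _ (by positivity)
              linarith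
          _ = X * L ^ (3 * A + 1) / H := by rw [pow_succ]; ring)
    rw [hcd, sum_image hinj] at key
    refine le_trans (sum_le_sum fun y hy => ?_) key
    have h1 := hy2 y hy
    have h2 : ((range H).filter (fun κ => ∃ q : ℕ, q.Prime ∧ a < q ∧ q ^ 2 ∣ W * (y + κ) + (b + h i))).card ≤
        ((Icc 1 (W * H)).filter (fun j => ∃ q : ℕ, q.Prime ∧ a < q ∧ q ^ 2 ∣ f y + j)).card := by
      apply card_le_card_of_injOn (fun κ => W * κ + 1)
      · intro κ hκ
        rw [mem_coe, mem_filter, mem_range] at hκ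
        rw [mem_coe, mem_filter, mem_Icc]
        have u1 : W * κ + W ≤ W * H := by
          calc W * κ + W = W * (κ + 1) := by ring
            _ ≤ W * H := Nat.mul_le_mul_left _ (by omega)
        refine ⟨⟨by beta_reduce; omega, by beta_reduce; omega⟩, ?_⟩
        obtain ⟨q, hq, haq, hqd⟩ := hκ.2
        refine ⟨q, hq, haq, ?_⟩
        have e1 : f y + (W * κ + 1) = W * (y + κ) + (b + h i) := by
          simp only [hf]
          have : W * (y + κ) = W * y + W * κ := by ring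
          omega
        beta_reduce
        rw [e1]
        exact hqd
      · intro κ _ κ' _ hκκ
        beta_reduce at hκκ
        have u1 : W * κ = W * κ' := by omega
        exact Nat.eq_of_mul_eq_mul_left hW u1
    exact_mod_cast h2
  -- all shifts
  have hall : ((sqb w ((X : ℝ) ^ τ) (pn H BB) (vl (fun n => n) W b H h)).card : ℝ) ≤
      ∑ i : Fin (2 ^ k), ∑ y ∈ BB, (((range H).filter (fun κ => ∃ q : ℕ, q.Prime ∧ a < q ∧
        q ^ 2 ∣ W * (y + κ) + (b + h i))).card : ℝ) := by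
    have h1 : ∀ i : Fin (2 ^ k), ∑ y ∈ BB, (((range H).filter (fun κ => ∃ q : ℕ, q.Prime ∧ a < q ∧
        q ^ 2 ∣ W * (y + κ) + (b + h i))).card : ℝ) =
        (((pn H BB).filter (fun K => ∃ q : ℕ, q.Prime ∧ a < q ∧
        q ^ 2 ∣ W * (K / H + K % H) + (b + h i))).card : ℝ) := by
      intro i
      have h2 := pn_sum H BB (fun y κ => if ∃ q : ℕ, q.Prime ∧ a < q ∧ q ^ 2 ∣ W * (y + κ) + (b + h i) then (1 : ℝ) else 0)
      rw [sum_boole] at h2
      rw [h2]
      refine sum_congr rfl fun y _ => ?_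
      rw [sum_boole]
    rw [sum_congr rfl fun i _ => h1 i]
    have h3 : sqb w ((X : ℝ) ^ τ) (pn H BB) (vl (fun n => n) W b H h) ⊆ univ.biUnion (fun i : Fin (2 ^ k) =>
        (pn H BB).filter (fun K => ∃ q : ℕ, q.Prime ∧ a < q ∧ q ^ 2 ∣ W * (K / H + K % H) + (b + h i))) := by
      intro K hK
      unfold sqb at hK
      rw [mem_filter] at hK
      obtain ⟨hK1, i, q, hq, hwq, -, hqd⟩ := hK
      rw [mem_biUnion]
      refine ⟨i, mem_univ i, mem_filter.2 ⟨hK1, q, hq, ?_, ?_⟩⟩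
      · have : ⌈w⌉₊ ≤ q := Nat.ceil_le.2 hwq
        omega
      · unfold vl at hqd
        rwa [Int.natAbs_natCast] at hqd
    have h4 := (card_le_card h3).trans card_biUnion_le
    exact_mod_cast h4
  have hfin : ((sqb w ((X : ℝ) ^ τ) (pn H BB) (vl (fun n => n) W b H h)).card : ℝ) ≤
      2 ^ k * (BB.card * ((W * H : ℕ) : ℝ) / P) := by
    refine hall.trans ((sum_le_sum fun i _ => hone i).trans ?_)
    rw [sum_const, nsmul_eq_mul, card_univ, Fintype.card_fin]
    push_cast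
    exact le_refl _
  calc ((sqb w ((X : ℝ) ^ τ) (pn H BB) (vl (fun n => n) W b H h)).card : ℝ) * L ^ A ≤
      2 ^ k * (BB.card * ((W * H : ℕ) : ℝ) / P) * L ^ A := mul_le_mul_of_nonneg_right hfin (by positivity)
    _ = BB.card * H := by
        rw [hPdef]
        push_cast
        field_simp

end Pool.Agent.K3h21.LW
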