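import Pool.Agent.K3h21.LW.Win
import Pool.Agent.K3h21.LW.SqL
import Pool.Agent.K3h21.AV.Win5

set_option autoImplicit false
set_option linter.unusedSectionVars false
set_option linter.unusedVariables false

/-! Clusters of almost primes in windows of all lengths. -/

namespace Pool.Agent.K3h21.LW

open Finset Filter Polynomial
open Pool.Agent.K3h21.AV
open Pool.Agent.Y677.RSZ (rt Sys per_mod ev_log)
open Pool.Agent.W23.DC

theorem ev_id : (fun n : ℤ => (X : ℤ[X]).eval n) = fun n => n := funext fun n => eval_X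

open Classical in
/-- clusters of almost primes in windows -/
theorem lin (r : ℕ) (τ θ B : ℝ) (hτ0 : 0 < τ) (hτθ : τ < θ) (hθ1 : θ ≤ 1) (hB : 1 < B)
    (hr : 9 / 8 + B / (24 / 25 * τ) ≤ r + 1) (m : ℕ) :
    ∃ K₀ : ℕ, ∀ HH : Finset ℕ, K₀ ≤ HH.card → ∃ A C : ℕ, ∀ᶠ X : ℕ in atTop, ∀ H : ℕ, 1 ≤ H → H ^ 2 ≤ X →
      ((((range (X + 1)).filter (fun x : ℕ => ((cl (fun n => n) HH m r ((X : ℝ) ^ (τ / 4)) x H).card : ℝ) <
        H / Real.log X ^ A)).card : ℕ) : ℝ) ≤ ((X : ℝ) + (X : ℝ) ^ (2 * θ)) * Real.log X ^ C / H := by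
  have hirr : Irreducible (X : ℤ[X]) := (prime_X).irreducible
  have hdeg : 0 < (X : ℤ[X]).natDegree := by rw [natDegree_X]; norm_num
  have hadm : ∀ p : ℕ, p.Prime → ∃ n : ℤ, ¬ (p : ℤ) ∣ (X : ℤ[X]).eval n := fun p hp => ⟨1, by
      rw [eval_X]
      intro h
      have := Int.eq_one_of_dvd_one (by positivity) h
      have := hp.one_lt
      omega⟩
  obtain ⟨g, hG⟩ := Pool.Agent.Y677.RSZ.poly_all (X : ℤ[X]) hirr.ne_zero hadm
  have hmer : ∀ ε₁ υ η : ℝ, 0 < ε₁ → υ ≤ 1 → 0 < η → ∃ Y0 : ℕ, ∀ Y : ℕ, Y0 ≤ Y →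
      Mer (pr Y ε₁ υ) (tt Y) (fun p => (rt (fun n => (X : ℤ[X]).eval n) p : ℝ) / p) ε₁ υ η :=
    fun (ε₁ υ η : ℝ) (hε : 0 < ε₁) (hυ : υ ≤ 1) (hη : 0 < η) =>
    Pool.Agent.K3h21.IR.mer_irr (X : ℤ[X]) hirr hdeg ε₁ υ η hε hυ hη
  rw [ev_id] at hG hmer
  obtain ⟨K₀, h1⟩ := win (fun n => n) g hG 1 1 1 (fun n hn => ⟨by
      have : 0 < n := by omega
      exact_mod_cast this.ne', by
      rw [Int.natAbs_natCast, pow_one]
      omega⟩) hmer r τ θ B hτ0 hτθ hθ1 (by exact_mod_cast hB) hr m (fun _ => 0) (fun _ => le_rfl)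
    (fun k A W b h hW => sq_lin 1 le_rfl τ hτ0 k A W b h hW)
  refine ⟨K₀, fun HH hHH => ?_⟩
  obtain ⟨A, C, h2⟩ := h1 HH hHH
  refine ⟨A, C, ?_⟩
  filter_upwards [h2] with X hX H hH hHX
  have h3 := hX H hH hHX
  rw [mul_zero, add_zero] at h3
  exact h3

/-- monotone in the sizes of the prime factors -/
theorem ap_mono (r : ℕ) (w w' : ℝ) (hw : w' ≤ w) (n : ℕ) (h : AP r w n) : AP r w' n :=
  ⟨h.1, fun p hp hd => hw.trans (h.2 p hp hd)⟩

open Classical in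
theorem cl_mono (G : ℤ → ℤ) (HH : Finset ℕ) (m r : ℕ) (w w' : ℝ) (hw : w' ≤ w) (x H : ℕ) :
    (cl G HH m r w x H).card ≤ (cl G HH m r w' x H).card := by
  apply card_le_card
  intro n hn
  unfold cl at hn ⊢
  rw [mem_filter] at hn ⊢
  obtain ⟨h1, Hs, h2, h3, h4⟩ := hn
  exact ⟨h1, Hs, h2, h3, fun h hh => ⟨(h4 h hh).1, ap_mono r w w' hw _ (h4 h hh).2⟩⟩

open Classical in
/-- products of at most three primes -/
theorem three (m : ℕ) :
    ∃ K₀ : ℕ, ∀ HH : Finset ℕ, K₀ ≤ HH.card → ∃ A C : ℕ, ∀ᶠ X : ℕ in atTop, ∀ H : ℕ, 1 ≤ H → H ^ 2 ≤ X →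
      ((((range (X + 1)).filter (fun x : ℕ => ((cl (fun n => n) HH m 3 ((X : ℝ) ^ ((3 : ℝ) / 25)) x H).card : ℝ) <
        H / Real.log X ^ A)).card : ℕ) : ℝ) ≤ (X : ℝ) * Real.log X ^ C / H := by
  obtain ⟨K₀, h1⟩ := lin 3 (12 / 25) (1 / 2) (11 / 10) (by norm_num) (by norm_num) (by norm_num) (by norm_num)
    (by norm_num) m
  refine ⟨K₀, fun HH hHH => ?_⟩
  obtain ⟨A, C, h2⟩ := h1 HH hHH
  refine ⟨A, C + 1, ?_⟩
  have v1 : ∀ᶠ X : ℕ in atTop, (2 : ℝ) ≤ Real.log (X : ℝ) :=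
    (Real.tendsto_log_atTop.comp (tendsto_natCast_atTop_atTop (R := ℝ))).eventually_ge_atTop _
  filter_upwards [h2, v1, eventually_ge_atTop 1] with X hX hlog hX1 H hH hHX
  have h3 := hX H hH hHX
  rw [show (12 : ℝ) / 25 / 4 = 3 / 25 by norm_num] at h3
  refine h3.trans ?_
  have hX0 : (0 : ℝ) ≤ X := Nat.cast_nonneg _
  have hl0 : 0 < Real.log X := by linarith
  apply div_le_div_of_nonneg_right _ (Nat.cast_nonneg _)
  rw [show (2 : ℝ) * (1 / 2) = 1 by norm_num, Real.rpow_one, pow_succ]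
  calc ((X : ℝ) + X) * Real.log X ^ C = X * (Real.log X ^ C * 2) := by ring
    _ ≤ X * (Real.log X ^ C * Real.log X) := by
        apply mul_le_mul_of_nonneg_left _ hX0
        exact mul_le_mul_of_nonneg_left hlog (by positivity)

open Classical in
/-- products of at most two primes -/
theorem two (m : ℕ) (η : ℝ) (hη : 10 / 9 < η) :
    ∃ K₀ : ℕ, ∀ HH : Finset ℕ, K₀ ≤ HH.card → ∃ A : ℕ, ∀ᶠ X : ℕ in atTop, ∀ H : ℕ, 1 ≤ H → H ^ 2 ≤ X →
      ((((range (X + 1)).filter (fun x : ℕ => ((cl (fun n => n) HH m 2 ((X : ℝ) ^ ((5 : ℝ) / 36)) x H).card : ℝ) <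
        H / Real.log X ^ A)).card : ℕ) : ℝ) ≤ (X : ℝ) ^ η / H := by
  set η' : ℝ := min η 2 with hη'
  have h10 : 10 / 9 < η' := lt_min hη (by norm_num)
  have h2' : η' ≤ 2 := min_le_right _ _
  have hle : η' ≤ η := min_le_left _ _
  set B : ℝ := (1 + 9 * η' / 10) / 2 with hB
  have hB1 : 1 < B := by rw [hB]; linarith
  have hB2 : B < 9 * η' / 10 := by rw [hB]; linarith
  set τ : ℝ := 5 * B / 9 with hτ
  set θ : ℝ := (τ + η' / 2) / 2 with hθ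
  have hτη : τ < η' / 2 := by rw [hτ]; linarith
  obtain ⟨K₀, h1⟩ := lin 2 τ θ B (by rw [hτ]; linarith) (by rw [hθ]; linarith) (by rw [hθ]; linarith) hB1
    (by
      have hB0 : B ≠ 0 := by linarith
      rw [hτ]
      have : B / (24 / 25 * (5 * B / 9)) = 15 / 8 := by
        field_simp
        norm_num
      rw [this]
      norm_num) m
  refine ⟨K₀, fun HH hHH => ?_⟩
  obtain ⟨A, C, h2⟩ := h1 HH hHH
  refine ⟨A, ?_⟩
  have hη1 : 0 < η' - 1 := by linarith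
  have hη2 : 0 < η' - 2 * θ := by rw [hθ]; linarith
  filter_upwards [h2, ev_log C 2 (η' - 1) hη1, ev_log C 2 (η' - 2 * θ) hη2, eventually_ge_atTop 1]
    with X hX e1 e2 hX1 H hH hHX
  have h3 := hX H hH hHX
  have hX1r : (1 : ℝ) ≤ X := by exact_mod_cast hX1
  have hX0 : (0 : ℝ) < X := by linarith
  have hw : (X : ℝ) ^ ((5 : ℝ) / 36) ≤ (X : ℝ) ^ (τ / 4) := by
    apply Real.rpow_le_rpow_of_exponent_le hX1r
    rw [hτ]
    linarith
  have h4 : ((((range (X + 1)).filter (fun x : ℕ => ((cl (fun n => n) HH m 2 ((X : ℝ) ^ ((5 : ℝ) / 36)) x H).card : ℝ) <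
        H / Real.log X ^ A)).card : ℕ) : ℝ) ≤ ((((range (X + 1)).filter (fun x : ℕ =>
        ((cl (fun n => n) HH m 2 ((X : ℝ) ^ (τ / 4)) x H).card : ℝ) < H / Real.log X ^ A)).card : ℕ) : ℝ) := by
    have : ((range (X + 1)).filter (fun x : ℕ => ((cl (fun n => n) HH m 2 ((X : ℝ) ^ ((5 : ℝ) / 36)) x H).card : ℝ) <
        H / Real.log X ^ A)).card ≤ ((range (X + 1)).filter (fun x : ℕ =>
        ((cl (fun n => n) HH m 2 ((X : ℝ) ^ (τ / 4)) x H).card : ℝ) < H / Real.log X ^ A)).card := by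
      apply card_le_card
      intro x hx
      rw [mem_filter] at hx ⊢
      refine ⟨hx.1, lt_of_le_of_lt ?_ hx.2⟩
      exact_mod_cast cl_mono _ HH m 2 _ _ hw x H
    exact_mod_cast this
  refine (h4.trans h3).trans ?_
  apply div_le_div_of_nonneg_right _ (Nat.cast_nonneg _)
  have f1 : (X : ℝ) * (X : ℝ) ^ (η' - 1) = (X : ℝ) ^ η' := by
    nth_rewrite 1 [← Real.rpow_one (X : ℝ)]
    rw [← Real.rpow_add hX0]
    congr 1
    ring
  have f2 : (X : ℝ) ^ (2 * θ) * (X : ℝ) ^ (η' - 2 * θ) = (X : ℝ) ^ η' := by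
    rw [← Real.rpow_add hX0]
    congr 1
    ring
  have f3 : (X : ℝ) * (2 * Real.log X ^ C) ≤ (X : ℝ) ^ η' := by
    rw [← f1]
    exact mul_le_mul_of_nonneg_left e1 hX0.le
  have f4 : (X : ℝ) ^ (2 * θ) * (2 * Real.log X ^ C) ≤ (X : ℝ) ^ η' := by
    rw [← f2]
    exact mul_le_mul_of_nonneg_left e2 (by positivity)
  have f5 : (X : ℝ) ^ η' ≤ (X : ℝ) ^ η := Real.rpow_le_rpow_of_exponent_le hX1r hle
  calc ((X : ℝ) + (X : ℝ) ^ (2 * θ)) * Real.log X ^ C =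
      ((X : ℝ) * (2 * Real.log X ^ C) + (X : ℝ) ^ (2 * θ) * (2 * Real.log X ^ C)) / 2 := by ring
    _ ≤ ((X : ℝ) ^ η' + (X : ℝ) ^ η') / 2 := by linarith
    _ = (X : ℝ) ^ η' := by ring
    _ ≤ _ := f5

end Pool.Agent.K3h21.LW
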