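import Pool.Agent.K3h21.LW.Win
import Pool.Agent.K3h21.AV.Win5

set_option autoImplicit false
set_option linter.unusedSectionVars false
set_option linter.unusedVariables false

/-! Clusters of almost prime values of irreducible polynomials in short windows. -/

namespace Pool.Agent.K3h21.LW

open Finset Filter Polynomial
open Pool.Agent.K3h21.AV
open Pool.Agent.Y677.RSZ (rt Sys per_mod ev_log)
open Pool.Agent.W23.DC

open Classical in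
/-- numbers with square factors: the trivial count -/
theorem sq_poly (G : ℤ → ℤ) (n₀ : ℕ) (hn₀ : 1 ≤ n₀) (KK q0 : ℕ)
    (hSq : ∀ q : ℕ, q.Prime → q0 ≤ q → ∀ N H : ℕ,
      ((((Icc 1 H).filter (fun j : ℕ => ((q ^ 2 : ℕ) : ℤ) ∣ G ((N + j : ℕ) : ℤ))).card : ℕ) : ℝ) ≤
        KK * (H * (1 / (q : ℝ) ^ 2) + 1))
    (τ σ : ℝ) (hτ : 0 < τ) (hσ1 : 1 - τ / 4 < σ) (hσ2 : τ < σ) (k A W b : ℕ) (h : Fin (2 ^ k) → ℕ) (hW : 0 < W) :
    ∃ C1 : ℕ, ∀ᶠ X : ℕ in atTop, ∀ H Z : ℕ, 1 ≤ H →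
      H ^ 2 ≤ X → (∀ y < Z, ∀ κ < H, ∀ i, W * (y + κ) + (b + h i) + 1 ≤ 2 * X) →
      ∀ BB ⊆ range Z, (∀ y ∈ BB, n₀ + 1 ≤ y) → (X : ℝ) * Real.log X ^ C1 / H + (X : ℝ) ^ σ ≤ BB.card →
      ((sqb ((X : ℝ) ^ (τ / 4)) ((X : ℝ) ^ τ) (pn H BB) (vl G W b H h)).card : ℝ) * Real.log X ^ A ≤
        BB.card * H := by
  refine ⟨0, ?_⟩
  have hT := tendsto_natCast_atTop_atTop (R := ℝ)
  have v3 : ∀ᶠ X : ℕ in atTop, (q0 + 2 : ℝ) ≤ (X : ℝ) ^ (τ / 4) :=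
    ((tendsto_rpow_atTop (by linarith)).comp hT).eventually_ge_atTop _
  filter_upwards [eventually_ge_atTop 3, v3, ev_log A (8 * (2 ^ k * KK)) (σ - (1 - τ / 4)) (by linarith),
    ev_log A (2 * (2 ^ k * KK)) (σ - τ) (by linarith)] with X a1 a3 a5 a6
  intro H Z hH hHX harg BB hBB hn hcard
  have hXr : (3 : ℝ) ≤ X := by exact_mod_cast a1
  have hX0 : (0 : ℝ) < X := by linarith
  have hHr : (1 : ℝ) ≤ H := by exact_mod_cast hH
  have hq0 : (0 : ℝ) ≤ q0 := Nat.cast_nonneg _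
  have hlog : 0 < Real.log X := Real.log_pos (by linarith)
  have h6 := sq_few G KK q0 hSq W b (2 * X) H h BB hW (fun y hy κ hκ i => by
    have b1 := hn y hy
    have b2 := harg y (mem_range.1 (hBB hy)) κ hκ i
    refine ⟨?_, by omega⟩
    have : 0 < W * (y + κ) := Nat.mul_pos hW (by omega)
    omega) ((X : ℝ) ^ (τ / 4)) ((X : ℝ) ^ τ) (by linarith) (by linarith) (by positivity)
  have hXs : (X : ℝ) ^ σ ≤ BB.card := by
    have : (0 : ℝ) ≤ (X : ℝ) * Real.log X ^ 0 / H := by positivity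
    linarith
  have e2 : (X : ℝ) / (X : ℝ) ^ (τ / 4) = (X : ℝ) ^ (1 - τ / 4) := by
    rw [Real.rpow_sub hX0, Real.rpow_one]
  have e4 : ((2 * X : ℕ) : ℝ) * (2 / (X : ℝ) ^ (τ / 4)) = 4 * (X : ℝ) ^ (1 - τ / 4) := by
    rw [← e2]
    push_cast
    ring
  have f1 : (X : ℝ) ^ (1 - τ / 4) * (X : ℝ) ^ (σ - (1 - τ / 4)) = (X : ℝ) ^ σ := by
    rw [← Real.rpow_add hX0]
    congr 1
    ring
  have f2 : (X : ℝ) ^ τ * (X : ℝ) ^ (σ - τ) = (X : ℝ) ^ σ := by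
    rw [← Real.rpow_add hX0]
    congr 1
    ring
  have g1 : (X : ℝ) ^ (1 - τ / 4) * (8 * (2 ^ k * KK) * Real.log X ^ A) ≤ (X : ℝ) ^ σ := by
    rw [← f1]
    exact mul_le_mul_of_nonneg_left a5 (by positivity)
  have g2 : (X : ℝ) ^ τ * (2 * (2 ^ k * KK) * Real.log X ^ A) ≤ (X : ℝ) ^ σ := by
    rw [← f2]
    exact mul_le_mul_of_nonneg_left a6 (by positivity)
  rw [e4] at h6
  calc ((sqb ((X : ℝ) ^ (τ / 4)) ((X : ℝ) ^ τ) (pn H BB) (vl G W b H h)).card : ℝ) * Real.log X ^ A ≤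
      H * (((2 ^ k : ℕ) : ℝ) * (KK * (4 * (X : ℝ) ^ (1 - τ / 4) + (X : ℝ) ^ τ))) * Real.log X ^ A :=
        mul_le_mul_of_nonneg_right h6 (by positivity)
    _ = H * (((X : ℝ) ^ (1 - τ / 4) * (8 * (2 ^ k * KK) * Real.log X ^ A) +
        (X : ℝ) ^ τ * (2 * (2 ^ k * KK) * Real.log X ^ A)) / 2) := by
          push_cast
          ring
    _ ≤ H * ((X : ℝ) ^ σ) := by
        apply mul_le_mul_of_nonneg_left _ (by positivity)
        linarith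
    _ ≤ BB.card * H := by
        rw [mul_comm]
        exact mul_le_mul_of_nonneg_right hXs (by positivity)

open Classical in
/-- **Clusters of almost prime values of an irreducible polynomial in short windows.** -/
theorem poly (f : ℤ[X]) (hf : Irreducible f) (hd : 0 < f.natDegree)
    (hadm : ∀ p : ℕ, p.Prime → ∃ n : ℤ, ¬ (p : ℤ) ∣ f.eval n)
    (r : ℕ) (τ η σ B : ℝ) (hτ0 : 0 < τ) (hτ1 : τ < 1) (hη1 : 1 < η) (hη2 : 2 * τ < η) (hB : (f.natDegree : ℝ) < B)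
    (hσ1 : 1 - τ / 4 < σ) (hσ2 : τ < σ)
    (hr : 9 / 8 + B / (24 / 25 * τ) ≤ r + 1) (m : ℕ) :
    ∃ K₀ : ℕ, ∀ HH : Finset ℕ, K₀ ≤ HH.card → ∃ A : ℕ, ∀ᶠ X : ℕ in atTop, ∀ H : ℕ, 1 ≤ H → H ^ 2 ≤ X →
      ((((range (X + 1)).filter (fun x : ℕ => ((cl (fun n => f.eval n) HH m r ((X : ℝ) ^ (τ / 4)) x H).card : ℝ) <
        H / Real.log X ^ A)).card : ℕ) : ℝ) ≤ (X : ℝ) ^ η / H + (X : ℝ) ^ σ := by
  obtain ⟨g, hG⟩ := Pool.Agent.Y677.RSZ.poly_all f hf.ne_zero hadm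
  obtain ⟨KK, q0, hSq⟩ := Pool.Agent.K3h21.IR.sq_irr f hf hd
  obtain ⟨CG, hCG⟩ := Pool.Agent.K3h21.IR.eval_size f
  obtain ⟨n₀, hn₀⟩ := ne_ev f hf.ne_zero
  set η' : ℝ := min η 2 with hη'
  have h10 : 1 < η' := lt_min hη1 (by norm_num)
  have h20 : 2 * τ < η' := lt_min hη2 (by linarith)
  have h2' : η' ≤ 2 := min_le_right _ _
  have hle : η' ≤ η := min_le_left _ _
  set θ : ℝ := (τ + η' / 2) / 2 with hθ
  set σ' : ℝ := (max (1 - τ / 4) τ + σ) / 2 with hσ'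
  have hm1 : 1 - τ / 4 ≤ max (1 - τ / 4) τ := le_max_left _ _
  have hm2 : τ ≤ max (1 - τ / 4) τ := le_max_right _ _
  have hm3 : max (1 - τ / 4) τ < σ := max_lt hσ1 hσ2
  obtain ⟨K₀, h1⟩ := win (fun n => f.eval n) g hG (n₀ + 1) CG f.natDegree
    (fun n hn => ⟨hn₀ n (by omega), hCG n⟩)
    (fun ε₁ υ η hε hυ hη => Pool.Agent.K3h21.IR.mer_irr f hf hd ε₁ υ η hε hυ hη)
    r τ θ B hτ0 (by rw [hθ]; linarith) (by rw [hθ]; linarith) hB hr m (fun X => (X : ℝ) ^ σ')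
    (fun X => by positivity)
    (fun k A W b h hW => sq_poly (fun n => f.eval n) (n₀ + 1) (by omega) KK q0 hSq τ σ' hτ0
      (by rw [hσ']; linarith) (by rw [hσ']; linarith) k A W b h hW)
  refine ⟨K₀, fun HH hHH => ?_⟩
  obtain ⟨A, C, h2⟩ := h1 HH hHH
  refine ⟨A, ?_⟩
  have hη1 : 0 < η' - 1 := by linarith
  have hη2 : 0 < η' - 2 * θ := by rw [hθ]; linarith
  have v1 : ∀ᶠ X : ℕ in atTop, (C : ℝ) ≤ (X : ℝ) ^ (σ - σ') :=
    ((tendsto_rpow_atTop (by rw [hσ']; linarith)).comp (tendsto_natCast_atTop_atTop (R := ℝ))).eventually_ge_atTop _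
  filter_upwards [h2, ev_log C 2 (η' - 1) hη1, ev_log C 2 (η' - 2 * θ) hη2, v1, eventually_ge_atTop 1]
    with X hX e1 e2 e3 hX1 H hH hHX
  have h3 := hX H hH hHX
  have hX1r : (1 : ℝ) ≤ X := by exact_mod_cast hX1
  have hX0 : (0 : ℝ) < X := by linarith
  refine h3.trans ?_
  have f1 : (X : ℝ) * (X : ℝ) ^ (η' - 1) = (X : ℝ) ^ η' := by
    nth_rewrite 1 [← Real.rpow_one (X : ℝ)]
    rw [← Real.rpow_add hX0]
    congr 1
    ring
  have f2 : (X : ℝ) ^ (2 * θ) * (X : ℝ) ^ (η' - 2 * θ) = (X : ℝ) ^ η' := by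
    rw [← Real.rpow_add hX0]
    congr 1
    ring
  have f3 : (X : ℝ) * (2 * Real.log X ^ C) ≤ (X : ℝ) ^ η' := by
    rw [← f1]
    exact mul_le_mul_of_nonneg_left e1 hX0.le
  have f4 : (X : ℝ) ^ (2 * θ) * (2 * Real.log X ^ C) ≤ (X : ℝ) ^ η' := by
    rw [← f2]
    exact mul_le_mul_of_nonneg_left e2 (by positivity)
  have f5 : (X : ℝ) ^ η' ≤ (X : ℝ) ^ η := Real.rpow_le_rpow_of_exponent_le hX1r hle
  have f6 : (C : ℝ) * (X : ℝ) ^ σ' ≤ (X : ℝ) ^ σ := by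
    calc (C : ℝ) * (X : ℝ) ^ σ' ≤ (X : ℝ) ^ (σ - σ') * (X : ℝ) ^ σ' :=
          mul_le_mul_of_nonneg_right e3 (by positivity)
      _ = (X : ℝ) ^ σ := by
          rw [← Real.rpow_add hX0]
          congr 1
          ring
  apply add_le_add _ f6
  apply div_le_div_of_nonneg_right _ (Nat.cast_nonneg _)
  calc ((X : ℝ) + (X : ℝ) ^ (2 * θ)) * Real.log X ^ C =
      ((X : ℝ) * (2 * Real.log X ^ C) + (X : ℝ) ^ (2 * θ) * (2 * Real.log X ^ C)) / 2 := by ring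
    _ ≤ ((X : ℝ) ^ η' + (X : ℝ) ^ η') / 2 := by linarith
    _ = (X : ℝ) ^ η' := by ring
    _ ≤ _ := f5

end Pool.Agent.K3h21.LW
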