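import Pool.Agent.K3h21.LW.Poly

set_option autoImplicit false
set_option linter.unusedSectionVars false
set_option linter.unusedVariables false

/-! Clusters of almost prime values of irreducible polynomials in short windows, windows of length a power of the logarithm
included. -/

namespace Pool.Agent.K3h21.LW

open Finset Filter Polynomial
open Pool.Agent.K3h21.AV
open Pool.Agent.Y677.RSZ (rt Sys per_mod ev_log)
open Pool.Agent.W23.DC

open Classical in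
/-- **Clusters of almost prime values of an irreducible polynomial in short windows**, with a power of the logarithm. -/
theorem poly2 (f : ℤ[X]) (hf : Irreducible f) (hd : 0 < f.natDegree)
    (hadm : ∀ p : ℕ, p.Prime → ∃ n : ℤ, ¬ (p : ℤ) ∣ f.eval n)
    (r : ℕ) (τ η σ B : ℝ) (hτ0 : 0 < τ) (hτ1 : τ < 1) (hη2 : 2 * τ < η) (hB : (f.natDegree : ℝ) < B)
    (hσ1 : 1 - τ / 4 < σ) (hσ2 : τ < σ)
    (hr : 9 / 8 + B / (24 / 25 * τ) ≤ r + 1) (m : ℕ) :
    ∃ K₀ : ℕ, ∀ HH : Finset ℕ, K₀ ≤ HH.card → ∃ A : ℕ, ∀ᶠ X : ℕ in atTop, ∀ H : ℕ, 1 ≤ H → H ^ 2 ≤ X →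
      ((((range (X + 1)).filter (fun x : ℕ => ((cl (fun n => f.eval n) HH m r ((X : ℝ) ^ (τ / 4)) x H).card : ℝ) <
        H / Real.log X ^ A)).card : ℕ) : ℝ) ≤ ((X : ℝ) * Real.log X ^ A + (X : ℝ) ^ η) / H + (X : ℝ) ^ σ := by
  obtain ⟨g, hG⟩ := Pool.Agent.Y677.RSZ.poly_all f hf.ne_zero hadm
  obtain ⟨KK, q0, hSq⟩ := Pool.Agent.K3h21.IR.sq_irr f hf hd
  obtain ⟨CG, hCG⟩ := Pool.Agent.K3h21.IR.eval_size f
  obtain ⟨n₀, hn₀⟩ := ne_ev f hf.ne_zero
  set η' : ℝ := min η 2 with hη'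
  have h20 : 2 * τ < η' := lt_min hη2 (by linarith)
  have h2' : η' ≤ 2 := min_le_right _ _
  have hle : η' ≤ η := min_le_left _ _
  set θ : ℝ := (τ + η' / 2) / 2 with hθ
  set σ' : ℝ := (max (1 - τ / 4) τ + σ) / 2 with hσ'
  have hm1 : 1 - τ / 4 ≤ max (1 - τ / 4) τ := le_max_left _ _
  have hm2 : τ ≤ max (1 - τ / 4) τ := le_max_right _ _
  have hm3 : max (1 - τ / 4) τ < σ := max_lt hσ1 hσ2
  obtain ⟨K₀, h1⟩ := win (fun n => f.eval n) g hG (n₀ + 1) CG f.natDegree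
    (fun n hn => ⟨hn₀ n (by omega), hCG n⟩)
    (fun ε₁ υ η hε hυ hη => Pool.Agent.K3h21.IR.mer_irr f hf hd ε₁ υ η hε hυ hη)
    r τ θ B hτ0 (by rw [hθ]; linarith) (by rw [hθ]; linarith) hB hr m (fun X => (X : ℝ) ^ σ')
    (fun X => by positivity)
    (fun k A W b h hW => sq_poly (fun n => f.eval n) (n₀ + 1) (by omega) KK q0 hSq τ σ' hτ0
      (by rw [hσ']; linarith) (by rw [hσ']; linarith) k A W b h hW)
  refine ⟨K₀, fun HH hHH => ?_⟩
  obtain ⟨A, C, h2⟩ := h1 HH hHH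
  refine ⟨A + C, ?_⟩
  have hη2 : 0 < η' - 2 * θ := by rw [hθ]; linarith
  have v1 : ∀ᶠ X : ℕ in atTop, (C : ℝ) ≤ (X : ℝ) ^ (σ - σ') :=
    ((tendsto_rpow_atTop (by rw [hσ']; linarith)).comp (tendsto_natCast_atTop_atTop (R := ℝ))).eventually_ge_atTop _
  have v2 : ∀ᶠ X : ℕ in atTop, (1 : ℝ) ≤ Real.log (X : ℝ) :=
    (Real.tendsto_log_atTop.comp (tendsto_natCast_atTop_atTop (R := ℝ))).eventually_ge_atTop _
  filter_upwards [h2, ev_log C 1 (η' - 2 * θ) hη2, v1, v2, eventually_ge_atTop 1]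
    with X hX e2 e3 hlog hX1 H hH hHX
  have h3 := hX H hH hHX
  have hX1r : (1 : ℝ) ≤ X := by exact_mod_cast hX1
  have hX0 : (0 : ℝ) < X := by linarith
  have hsub : ((((range (X + 1)).filter (fun x : ℕ => ((cl (fun n => f.eval n) HH m r ((X : ℝ) ^ (τ / 4)) x H).card : ℝ) <
        H / Real.log X ^ (A + C))).card : ℕ) : ℝ) ≤
      ((((range (X + 1)).filter (fun x : ℕ => ((cl (fun n => f.eval n) HH m r ((X : ℝ) ^ (τ / 4)) x H).card : ℝ) <
        H / Real.log X ^ A)).card : ℕ) : ℝ) := by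
    have : (range (X + 1)).filter (fun x : ℕ => ((cl (fun n => f.eval n) HH m r ((X : ℝ) ^ (τ / 4)) x H).card : ℝ) <
        H / Real.log X ^ (A + C)) ⊆ (range (X + 1)).filter (fun x : ℕ =>
          ((cl (fun n => f.eval n) HH m r ((X : ℝ) ^ (τ / 4)) x H).card : ℝ) < H / Real.log X ^ A) := by
      intro x hx
      rw [Finset.mem_filter] at hx ⊢
      refine ⟨hx.1, lt_of_lt_of_le hx.2 ?_⟩
      apply div_le_div_of_nonneg_left (Nat.cast_nonneg _) (by positivity)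
      exact pow_le_pow_right₀ hlog (by omega)
    exact_mod_cast Finset.card_le_card this
  refine hsub.trans (h3.trans ?_)
  have f2 : (X : ℝ) ^ (2 * θ) * (X : ℝ) ^ (η' - 2 * θ) = (X : ℝ) ^ η' := by
    rw [← Real.rpow_add hX0]
    congr 1
    ring
  have f4 : (X : ℝ) ^ (2 * θ) * (1 * Real.log X ^ C) ≤ (X : ℝ) ^ η' := by
    rw [← f2]
    exact mul_le_mul_of_nonneg_left e2 (by positivity)
  have f5 : (X : ℝ) ^ η' ≤ (X : ℝ) ^ η := Real.rpow_le_rpow_of_exponent_le hX1r hle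
  have f6 : (C : ℝ) * (X : ℝ) ^ σ' ≤ (X : ℝ) ^ σ := by
    calc (C : ℝ) * (X : ℝ) ^ σ' ≤ (X : ℝ) ^ (σ - σ') * (X : ℝ) ^ σ' :=
          mul_le_mul_of_nonneg_right e3 (by positivity)
      _ = (X : ℝ) ^ σ := by
          rw [← Real.rpow_add hX0]
          congr 1
          ring
  apply add_le_add _ f6
  apply div_le_div_of_nonneg_right _ (Nat.cast_nonneg _)
  have f7 : Real.log X ^ C ≤ Real.log X ^ (A + C) := pow_le_pow_right₀ hlog (by omega)
  calc ((X : ℝ) + (X : ℝ) ^ (2 * θ)) * Real.log X ^ C =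
      X * Real.log X ^ C + (X : ℝ) ^ (2 * θ) * (1 * Real.log X ^ C) := by ring
    _ ≤ X * Real.log X ^ (A + C) + (X : ℝ) ^ η' := by
        apply add_le_add _ f4
        exact mul_le_mul_of_nonneg_left f7 hX0.le
    _ ≤ _ := by linarith

end Pool.Agent.K3h21.LW
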