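import Pool.Agent.K3h21.LW.Few

set_option autoImplicit false
set_option linter.unusedSectionVars false
set_option linter.unusedVariables false

/-! Few windows contain few clusters of almost prime values: the theorem for windows of all lengths. -/

namespace Pool.Agent.K3h21.LW

open Finset Filter
open Pool.Agent.K3h21.AV
open Pool.Agent.Y677.RSZ (rt Sys per_mod ev_log)
open Pool.Agent.W23.DC
open Pool.Agent.R498.MT (exW shifts)

open Classical in
/-- the positions of clusters of almost prime values in the window `(x, x + H]` -/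
noncomputable def cl (G : ℤ → ℤ) (HH : Finset ℕ) (m r : ℕ) (w : ℝ) (x H : ℕ) : Finset ℕ :=
  (Ioc x (x + H)).filter (fun n => ∃ Hs ⊆ HH, Hs.card = m ∧ ∀ h ∈ Hs, n + h ≤ x + H ∧
    AP r w (G ((n + h : ℕ) : ℤ)).natAbs)

theorem numsL (W hm n₀ CG dg Y₀ Y₁ : ℕ) (B K1 : ℝ) (hB : (dg : ℝ) < B) :
    ∀ᶠ X : ℕ in atTop, 3 ≤ X ∧ Y₀ ≤ X ∧ Y₁ ≤ X ∧ K1 ≤ Real.log X ∧
      (CG * 3 ^ dg : ℝ) ≤ (X : ℝ) ^ (B - dg) ∧ (W * (n₀ + 2) + 2 * (2 * W + hm + 1) + 4) ^ 2 ≤ X := by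
  have hT := tendsto_natCast_atTop_atTop (R := ℝ)
  have v1 : ∀ᶠ X : ℕ in atTop, K1 ≤ Real.log (X : ℝ) :=
    (Real.tendsto_log_atTop.comp hT).eventually_ge_atTop _
  have v3 : ∀ᶠ X : ℕ in atTop, (CG * 3 ^ dg : ℝ) ≤ (X : ℝ) ^ (B - dg) :=
    ((tendsto_rpow_atTop (by linarith)).comp hT).eventually_ge_atTop _
  filter_upwards [eventually_ge_atTop 3, eventually_ge_atTop Y₀, eventually_ge_atTop Y₁, v1, v3,
    eventually_ge_atTop ((W * (n₀ + 2) + 2 * (2 * W + hm + 1) + 4) ^ 2)] with X a1 a2 a3 a4 a5 a6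
  exact ⟨a1, a2, a3, a4, a5, a6⟩

open Classical in
/-- **Few windows contain few clusters of almost prime values.** -/
theorem win (G : ℤ → ℤ) (g : ℕ) (hG : Sys g G) (n₀ CG dg : ℕ)
    (hGs : ∀ n : ℕ, n₀ ≤ n → G (n : ℤ) ≠ 0 ∧ (G (n : ℤ)).natAbs ≤ CG * (n + 1) ^ dg)
    (hMer : ∀ ε₁ υ η : ℝ, 0 < ε₁ → υ ≤ 1 → 0 < η → ∃ Y0 : ℕ, ∀ Y : ℕ, Y0 ≤ Y →
      Mer (pr Y ε₁ υ) (tt Y) (fun p => (rt G p : ℝ) / p) ε₁ υ η)
    (r : ℕ) (τ θ B : ℝ) (hτ0 : 0 < τ) (hτθ : τ < θ) (hθ1 : θ ≤ 1) (hB : (dg : ℝ) < B)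
    (hr : 9 / 8 + B / (24 / 25 * τ) ≤ r + 1) (m : ℕ) (S : ℕ → ℝ) (hS0 : ∀ X, 0 ≤ S X)
    (hSQ : ∀ (k A W b : ℕ) (h : Fin (2 ^ k) → ℕ), 0 < W → ∃ C1 : ℕ, ∀ᶠ X : ℕ in atTop, ∀ H Z : ℕ, 1 ≤ H →
      H ^ 2 ≤ X → (∀ y < Z, ∀ κ < H, ∀ i, W * (y + κ) + (b + h i) + 1 ≤ 2 * X) →
      ∀ BB ⊆ range Z, (∀ y ∈ BB, n₀ + 1 ≤ y) → (X : ℝ) * Real.log X ^ C1 / H + S X ≤ BB.card →
      ((sqb ((X : ℝ) ^ (τ / 4)) ((X : ℝ) ^ τ) (pn H BB) (vl G W b H h)).card : ℝ) * Real.log X ^ A ≤ BB.card * H) :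
    ∃ K₀ : ℕ, ∀ HH : Finset ℕ, K₀ ≤ HH.card → ∃ A C : ℕ, ∀ᶠ X : ℕ in atTop, ∀ H : ℕ, 1 ≤ H → H ^ 2 ≤ X →
      ((((range (X + 1)).filter (fun x : ℕ => ((cl G HH m r ((X : ℝ) ^ (τ / 4)) x H).card : ℝ) <
        H / Real.log X ^ A)).card : ℕ) : ℝ) ≤
        ((X : ℝ) + (X : ℝ) ^ (2 * θ)) * Real.log X ^ C / H + C * S X := by
  have hdg0 : (0 : ℝ) ≤ dg := Nat.cast_nonneg _
  obtain ⟨k, A₁, A, δ, hA₁, hδ, hfin⟩ := finG g (⌈B⌉₊ + 1) r τ θ B hτ0 hτθ
    (by linarith) (by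
      push_cast
      have := Nat.le_ceil B
      have h0 : (0 : ℝ) ≤ ⌈B⌉₊ := Nat.cast_nonneg _
      linarith) hr m
  obtain ⟨W₀, hW₀0, hW₀s, hW₀p, hW₀g⟩ := exW A₁ g
  refine ⟨W₀ * 2 ^ k, fun HH hHH => ?_⟩
  obtain ⟨r₀, t, hr₀, ht, htH⟩ := shifts W₀ (2 ^ k) hW₀0 HH hHH
  set h : Fin (2 ^ k) → ℕ := fun i => W₀ * t i + r₀ with hh
  have hinj : Function.Injective h := by
    intro i j hij
    rw [hh] at hij
    dsimp only at hij
    exact ht (Nat.eq_of_mul_eq_mul_left hW₀0 (by omega))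
  set hm : ℕ := HH.sup id with hhm
  have hle : ∀ i, h i ≤ hm := fun i => Finset.le_sup (f := id) (htH i)
  obtain ⟨W, hW0, hWs, hWp, hWg⟩ := exW (A₁ + hm ^ g) g
  obtain ⟨η, hη, Y₀, hfin⟩ := hfin W hW0 (fun p hp hpA => hWp p hp (by omega))
  obtain ⟨Y₁, hMe⟩ := hMer δ (24 / 25 * τ) η hδ (by linarith) hη
  obtain ⟨b, hbW, hb⟩ := exb2 G g hG W₀ W A₁ (by omega) t r₀ hW₀p hWs
  set j : ℕ := 2 ^ k * g with hj
  set E : ℕ := 2 * 2 ^ j + 2 ^ (2 * j) with hE
  clear_value E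
  obtain ⟨C1, hSQ1⟩ := hSQ k A W b h hW0
  set C0 : ℕ := E + 2 * A + C1 + 1 with hC0
  refine ⟨A + 1, C0 + 1 + W, ?_⟩
  have hUU : ∀ p : ℕ, p.Prime → ¬ p ∣ W → ∀ x : ℕ, ∀ i j, (p : ℤ) ∣ G ((x + h i : ℕ) : ℤ) →
      (p : ℤ) ∣ G ((x + h j : ℕ) : ℤ) → i = j := by
    intro p hp hpW x
    have key : ∀ i j, t i < t j → (p : ℤ) ∣ G ((x + h i : ℕ) : ℤ) →
        (p : ℤ) ∣ G ((x + h j : ℕ) : ℤ) → False := by
      intro i j hlt hi hj'
      obtain ⟨Δ, hΔ⟩ := hG.coll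
      obtain ⟨s, hs⟩ : ∃ s, t j = t i + (s + 1) := ⟨t j - t i - 1, by omega⟩
      have e1 : h j = h i + W₀ * (s + 1) := by
        rw [hh]
        dsimp only
        rw [hs]
        ring
      have e2 : g ≤ W₀ * (s + 1) := hW₀g.trans (Nat.le_mul_of_pos_right _ (by omega))
      obtain ⟨d1, d2, d3⟩ := hΔ (W₀ * (s + 1)) e2
      have e3 : p ∣ Δ (W₀ * (s + 1)) := by
        apply d3 p hp ((x + h i : ℕ) : ℤ) hi
        have : ((x + h i : ℕ) : ℤ) + ((W₀ * (s + 1) : ℕ) : ℤ) = ((x + h j : ℕ) : ℤ) := by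
          rw [e1]
          push_cast
          ring
        rw [this]
        exact hj'
      have e4 : p ≤ hm ^ g := by
        refine (Nat.le_of_dvd (by omega) e3).trans (d2.trans (Nat.pow_le_pow_left ?_ g))
        have := hle j
        omega
      exact hpW (hWp p hp (by omega))
    intro i j hi hj'
    by_contra hne
    rcases Nat.lt_trichotomy (t i) (t j) with h1 | h1 | h1
    · exact key i j h1 hi hj'
    · exact hne (ht h1)
    · exact key j i h1 hj' hi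
  have hnum := numsL W hm n₀ CG dg Y₀ Y₁ B (12 * 2 ^ E + 4 * (3 * W + hm) + (2 * W ^ 2 + 2 * W + 1) + 2) hB
  filter_upwards [hnum, hSQ1] with X hX hSQX
  obtain ⟨a1, a2, a3, a4, a8, a9⟩ := hX
  intro H hH1 hHX
  have hXr : (3 : ℝ) ≤ X := by exact_mod_cast a1
  have hX0 : (0 : ℝ) < X := by linarith
  have hX1 : (1 : ℝ) ≤ X := by linarith
  set L : ℝ := Real.log X with hL
  have hWr : (1 : ℝ) ≤ W := by exact_mod_cast hW0
  have hhm0 : (0 : ℝ) ≤ hm := Nat.cast_nonneg _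
  have c1 : (0 : ℝ) ≤ 12 * 2 ^ E := by positivity
  have c2 : (0 : ℝ) ≤ 2 * (W : ℝ) ^ 2 + 2 * W + 1 := by positivity
  have c3 : (0 : ℝ) ≤ 4 * (3 * (W : ℝ) + hm) := by positivity
  have hL1 : 1 ≤ L := by linarith
  have hL8 : 12 * 2 ^ E ≤ L := by linarith
  have hL2W : 2 * (W : ℝ) ^ 2 + 2 * W + 1 ≤ L := by linarith
  have hLh : 4 * (3 * (W : ℝ) + hm) ≤ L := by linarith
  have hHr : (1 : ℝ) ≤ H := by exact_mod_cast hH1
  have hH0 : (0 : ℝ) < H := by linarith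
  have hY0 : (0 : ℝ) ≤ (X : ℝ) ^ (2 * θ) := by positivity
  set BX : Finset ℕ := (range (X + 1)).filter (fun x : ℕ => ((cl G HH m r ((X : ℝ) ^ (τ / 4)) x H).card : ℝ) <
        H / L ^ (A + 1)) with hBX
  have hSX : 0 ≤ ((C0 + 1 + W : ℕ) : ℝ) * S X := mul_nonneg (Nat.cast_nonneg _) (hS0 X)
  have hLC : L ^ (C0 + 1) ≤ L ^ (C0 + 1 + W) := pow_le_pow_right₀ hL1 (by omega)
  by_cases hsm : H < 2 * (3 * W + hm)
  · -- short windows: trivial
    have h1 : (BX.card : ℝ) ≤ X + 1 := by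
      have := card_filter_le (range (X + 1)) (fun x : ℕ => ((cl G HH m r ((X : ℝ) ^ (τ / 4)) x H).card : ℝ) <
        H / L ^ (A + 1))
      rw [card_range] at this
      exact_mod_cast this
    have h2 : (H : ℝ) ≤ 2 * (3 * W + hm) := by exact_mod_cast hsm.le
    have h3 : (X : ℝ) + 1 ≤ ((X : ℝ) + (X : ℝ) ^ (2 * θ)) * L ^ (C0 + 1 + W) / H := by
      rw [le_div_iff₀ hH0]
      have h4 : L ≤ L ^ (C0 + 1 + W) := by
        calc L = L ^ 1 := (pow_one _).symm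
          _ ≤ _ := pow_le_pow_right₀ hL1 (by omega)
      calc ((X : ℝ) + 1) * H ≤ (2 * X) * (2 * (3 * W + hm)) := by
            apply mul_le_mul (by linarith) h2 (by positivity) (by positivity)
        _ = X * (4 * (3 * W + hm)) := by ring
        _ ≤ X * L := mul_le_mul_of_nonneg_left hLh hX0.le
        _ ≤ (X + (X : ℝ) ^ (2 * θ)) * L ^ (C0 + 1 + W) := by
            apply mul_le_mul (by linarith) h4 (by linarith) (by positivity)
    linarith
  push Not at hsm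
  set H₁ : ℕ := (H - hm) / W - 2 with hH₁
  have hd1 : W * ((H - hm) / W) ≤ H - hm := Nat.mul_div_le _ _
  have hd2 : H - hm < W * ((H - hm) / W + 1) := Nat.lt_mul_div_succ _ hW0
  have hd3 : 3 ≤ (H - hm) / W := (Nat.le_div_iff_mul_le hW0).2 (by omega)
  have hd4 : (H - hm) / W = H₁ + 2 := by omega
  rw [hd4] at hd1 hd2
  have hH₁1 : 1 ≤ H₁ := by omega
  have hup : W * (H₁ + 2) + hm ≤ H := by omega
  have hlow : H ≤ 2 * W * H₁ := by
    have e1 : W * (H₁ + 2 + 1) = W * H₁ + 3 * W := by ring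
    have e2 : 2 * W * H₁ = W * H₁ + W * H₁ := by ring
    rw [e1] at hd2
    omega
  have hH₁r : (1 : ℝ) ≤ H₁ := by exact_mod_cast hH₁1
  have hlowr : (H : ℝ) ≤ 2 * W * H₁ := by exact_mod_cast hlow
  have hH₁H : H₁ ≤ H := by
    have : H₁ + 2 ≤ W * (H₁ + 2) := Nat.le_mul_of_pos_left _ hW0
    omega
  have hH₁X : H₁ ^ 2 ≤ X := (Nat.pow_le_pow_left hH₁H 2).trans hHX
  set Z : ℕ := X / W + 2 with hZ
  have hZr : (Z : ℝ) ≤ 2 * X := by
    have h1 : Z ≤ 2 * X := by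
      have := Nat.div_le_self X W
      omega
    exact_mod_cast h1
  have hWX : W * (X / W) ≤ X := Nat.mul_div_le X W
  -- sizes
  have hbig : 2 * W + hm + 1 + H + 1 ≤ X := by
    set T : ℕ := W * (n₀ + 2) + 2 * (2 * W + hm + 1) + 4 with hT
    have h1 : 2 * H ≤ X := by
      by_contra hcon
      push Not at hcon
      have h2 : H < 2 := by
        by_contra h3
        push Not at h3
        have h4 : 2 * H ≤ H * H := Nat.mul_le_mul_right H h3
        rw [← pow_two] at h4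
        omega
      omega
    have hT4 : 4 ≤ T := by omega
    have h2 : 4 * T ≤ T ^ 2 := by
      rw [pow_two]
      exact Nat.mul_le_mul_right T hT4
    omega
  set b0 : ℝ := ((X : ℝ) + (X : ℝ) ^ (2 * θ)) * L ^ C0 / H₁ + S X with hb0
  have hb00 : 0 < b0 := by
    rw [hb0]
    have := hS0 X
    have : 0 < ((X : ℝ) + (X : ℝ) ^ (2 * θ)) * L ^ C0 / H₁ := by positivity
    linarith
  have hfl : (⌊(X : ℝ) ^ θ⌋₊ : ℝ) ≤ (X : ℝ) ^ θ := Nat.floor_le (by positivity)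
  have hfl1 : (1 : ℝ) ≤ ⌊(X : ℝ) ^ θ⌋₊ := by
    have : 1 ≤ ⌊(X : ℝ) ^ θ⌋₊ := Nat.le_floor (by
      push_cast
      exact Real.one_le_rpow hX1 (by linarith))
    exact_mod_cast this
  have hlf : 1 + Real.log ⌊(X : ℝ) ^ θ⌋₊ ≤ 2 * L := by
    have h1 : Real.log ⌊(X : ℝ) ^ θ⌋₊ ≤ θ * L := by
      rw [hL, ← Real.log_rpow hX0]
      exact Real.log_le_log (by linarith) hfl
    have h2 : θ * L ≤ 1 * L := mul_le_mul_of_nonneg_right hθ1 (by linarith)
    linarith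
  have hlf0 : 0 ≤ 1 + Real.log ⌊(X : ℝ) ^ θ⌋₊ := by
    have := Real.log_nonneg hfl1
    linarith
  have harg : ∀ y < Z, ∀ κ < H₁, ∀ i, W * (y + κ) + (b + h i) + 1 ≤ 2 * X := by
    intro y hy κ hκ i
    have h1 : W * (y + κ) ≤ W * (X / W + 1 + H₁) := Nat.mul_le_mul_left _ (by omega)
    have h2 : W * (X / W + 1 + H₁) = W * (X / W) + W + W * H₁ := by ring
    have h3 := hle i
    have h4 : W * (H₁ + 2) = W * H₁ + W + W := by ring
    omega
  have hfew : ((bdc G W b H₁ r m n₀ Z ((X : ℝ) ^ (τ / 4)) (Real.log X ^ A) h).card : ℝ) < b0 := by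
    apply few_bad g k r m A A₁ τ θ B δ η hδ W Y₀ hW0 hfin G hG n₀ X a1 a2
      (hMe X a3) b Z H₁ j h hH₁1 hb hUU ?_ ?_ b0 hb00 ?_ ?_
    · intro y hy hn κ hκ i
      have h1 := harg y hy κ hκ i
      have h2 : n₀ ≤ W * (y + κ) + (b + h i) := by
        have : y + κ ≤ W * (y + κ) := Nat.le_mul_of_pos_left _ hW0
        omega
      obtain ⟨d1, d2⟩ := hGs _ h2
      refine ⟨d1, ?_⟩
      have d3 : ((G ((W * (y + κ) + (b + h i) : ℕ) : ℤ)).natAbs : ℝ) ≤
          CG * ((W * (y + κ) + (b + h i) + 1 : ℕ) : ℝ) ^ dg := by exact_mod_cast d2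
      have d4 : ((W * (y + κ) + (b + h i) + 1 : ℕ) : ℝ) ≤ 3 * X := by
        have : ((W * (y + κ) + (b + h i) + 1 : ℕ) : ℝ) ≤ ((2 * X : ℕ) : ℝ) := by exact_mod_cast h1
        push_cast at this ⊢
        linarith
      calc ((G ((W * (y + κ) + (b + h i) : ℕ) : ℤ)).natAbs : ℝ) ≤
          CG * ((W * (y + κ) + (b + h i) + 1 : ℕ) : ℝ) ^ dg := d3
        _ ≤ CG * (3 * X) ^ dg := by
            apply mul_le_mul_of_nonneg_left _ (Nat.cast_nonneg _)
            exact pow_le_pow_left₀ (Nat.cast_nonneg _) d4 _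
        _ = (CG * 3 ^ dg) * (X : ℝ) ^ dg := by rw [mul_pow]; ring
        _ ≤ (X : ℝ) ^ (B - dg) * (X : ℝ) ^ dg := mul_le_mul_of_nonneg_right a8 (by positivity)
        _ = (X : ℝ) ^ B := by
            rw [← Real.rpow_natCast, ← Real.rpow_add hX0]
            congr 1
            ring
    · exact Nat.lt_two_pow_self.le
    · -- h1
      have e1 : (1 + Real.log ⌊(X : ℝ) ^ θ⌋₊) ^ (2 * 2 ^ j + 2 ^ (2 * j)) ≤ 2 ^ E * L ^ E := by
        rw [← hE, ← mul_pow]
        exact pow_le_pow_left₀ hlf0 hlf _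
      have e2 : (⌊(X : ℝ) ^ θ⌋₊ : ℝ) ^ 2 ≤ (X : ℝ) ^ (2 * θ) := by
        calc (⌊(X : ℝ) ^ θ⌋₊ : ℝ) ^ 2 ≤ ((X : ℝ) ^ θ) ^ 2 := pow_le_pow_left₀ (by positivity) hfl _
          _ = (X : ℝ) ^ (2 * θ) := by
              rw [← Real.rpow_natCast, ← Real.rpow_mul hX0.le]
              congr 1
              push_cast
              ring
      have e3 : L ^ (E + 2 * A + 1) ≤ L ^ C0 := pow_le_pow_right₀ hL1 (by omega)
      calc 6 * ((Z : ℝ) + (⌊(X : ℝ) ^ θ⌋₊ : ℝ) ^ 2) * (1 + Real.log ⌊(X : ℝ) ^ θ⌋₊) ^ (2 * 2 ^ j + 2 ^ (2 * j)) *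
          (L ^ A) ^ 2 ≤ 6 * (2 * ((X : ℝ) + (X : ℝ) ^ (2 * θ))) * (2 ^ E * L ^ E) * (L ^ A) ^ 2 := by
            apply mul_le_mul_of_nonneg_right _ (by positivity)
            apply mul_le_mul _ e1 (by positivity) (by positivity)
            apply mul_le_mul_of_nonneg_left _ (by norm_num)
            linarith
        _ = ((X : ℝ) + (X : ℝ) ^ (2 * θ)) * ((12 * 2 ^ E) * (L ^ E * (L ^ A) ^ 2)) := by ring
        _ ≤ ((X : ℝ) + (X : ℝ) ^ (2 * θ)) * (L * (L ^ E * (L ^ A) ^ 2)) := by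
            apply mul_le_mul_of_nonneg_left _ (by positivity)
            exact mul_le_mul_of_nonneg_right hL8 (by positivity)
        _ = ((X : ℝ) + (X : ℝ) ^ (2 * θ)) * L ^ (E + 2 * A + 1) := by
            rw [pow_add, pow_add, pow_mul, pow_one]
            ring
        _ ≤ ((X : ℝ) + (X : ℝ) ^ (2 * θ)) * L ^ C0 := mul_le_mul_of_nonneg_left e3 (by positivity)
        _ = ((X : ℝ) + (X : ℝ) ^ (2 * θ)) * L ^ C0 / H₁ * H₁ := by
            rw [div_mul_cancel₀]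
            positivity
        _ ≤ b0 * H₁ := by
            apply mul_le_mul_of_nonneg_right _ (by positivity)
            rw [hb0]
            linarith [hS0 X]
    · intro BB hBB hb hn
      refine hSQX H₁ Z hH₁1 hH₁X harg BB hBB hn (le_trans ?_ hb)
      rw [hb0]
      apply add_le_add_left
      apply div_le_div_of_nonneg_right _ (by positivity)
      apply mul_le_mul _ (pow_le_pow_right₀ hL1 (by omega)) (by positivity) (by positivity)
      linarith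
  -- from windows to points
  set sx : ℕ := W * (n₀ + 2) with hsx
  have hmain : ∀ x ∈ BX, sx ≤ x → x / W + 1 ∈ bdc G W b H₁ r m n₀ Z ((X : ℝ) ^ (τ / 4)) (L ^ A) h := by
    intro x hx hsx'
    rw [hBX, mem_filter, mem_range] at hx
    obtain ⟨hxX, hxbad⟩ := hx
    by_contra hno
    have hxW : W * (x / W) ≤ x := Nat.mul_div_le x W
    have hxW2 : x < W * (x / W + 1) := Nat.lt_mul_div_succ x hW0
    have hy1 : n₀ + 1 ≤ x / W + 1 := by
      have : n₀ + 2 ≤ x / W := (Nat.le_div_iff_mul_le hW0).2 (by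
        rw [mul_comm]
        omega)
      omega
    have hy2 : x / W + 1 < Z := by
      have : x / W ≤ X / W := Nat.div_le_div_right (by omega)
      omega
    unfold bdc at hno
    rw [mem_filter, mem_range] at hno
    set F : Finset ℕ := (range H₁).filter (fun κ => ∃ Hs : Finset (Fin (2 ^ k)), Hs.card = m ∧
        ∀ i ∈ Hs, AP r ((X : ℝ) ^ (τ / 4)) (G ((W * (x / W + 1 + κ) + (b + h i) : ℕ) : ℤ)).natAbs) with hF
    have hFc : (F.card : ℝ) ≤ (cl G HH m r ((X : ℝ) ^ (τ / 4)) x H).card := by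
      have : F.card ≤ (cl G HH m r ((X : ℝ) ^ (τ / 4)) x H).card := by
        apply card_le_card_of_injOn (fun κ => W * (x / W + 1 + κ) + b)
        · intro κ hκ
          rw [mem_coe, hF, mem_filter, mem_range] at hκ
          obtain ⟨hκ1, Hs, hHs, hAP⟩ := hκ
          have u1 : W * (x / W + 1 + κ) ≤ W * (x / W + H₁) := Nat.mul_le_mul_left _ (by omega)
          have u2 : W * (x / W + H₁) = W * (x / W) + W * H₁ := by ring
          have u3 : W * (x / W + 1) ≤ W * (x / W + 1 + κ) := Nat.mul_le_mul_left _ (by omega)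
          have u4 : W * (H₁ + 2) = W * H₁ + W + W := by ring
          unfold cl
          rw [mem_coe, mem_filter, mem_Ioc]
          refine ⟨⟨by beta_reduce; omega, by beta_reduce; omega⟩, Hs.image h, ?_, ?_, ?_⟩
          · intro a ha
            rw [mem_image] at ha
            obtain ⟨i, hi, rfl⟩ := ha
            exact htH i
          · rw [card_image_of_injective _ hinj, hHs]
          · intro a ha
            rw [mem_image] at ha
            obtain ⟨i, hi, rfl⟩ := ha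
            have u5 := hle i
            refine ⟨by beta_reduce; omega, ?_⟩
            beta_reduce
            rw [add_assoc]
            exact hAP i hi
        · intro κ _ κ' _ hκκ
          beta_reduce at hκκ
          have u1 : W * (x / W + 1 + κ) = W * (x / W + 1 + κ') := by omega
          have u2 := Nat.eq_of_mul_eq_mul_left hW0 u1
          omega
      exact_mod_cast this
    have h1 : (H₁ : ℝ) / L ^ A ≤ F.card := by
      by_contra h2
      push Not at h2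
      exact hno ⟨hy2, hy1, h2⟩
    have h2 : (H : ℝ) / L ^ (A + 1) ≤ H₁ / L ^ A := by
      rw [div_le_div_iff₀ (by positivity) (by positivity)]
      calc (H : ℝ) * L ^ A ≤ (2 * W * H₁) * L ^ A := mul_le_mul_of_nonneg_right hlowr (by positivity)
        _ = H₁ * ((2 * W) * L ^ A) := by ring
        _ ≤ H₁ * (L * L ^ A) := by
            apply mul_le_mul_of_nonneg_left _ (by positivity)
            apply mul_le_mul_of_nonneg_right _ (by positivity)
            linarith [sq_nonneg (W : ℝ)]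
        _ = H₁ * L ^ (A + 1) := by rw [pow_succ]; ring
    linarith
  have hcount : BX.card ≤ sx + W * (bdc G W b H₁ r m n₀ Z ((X : ℝ) ^ (τ / 4)) (L ^ A) h).card := by
    have hsub : BX ⊆ range sx ∪ BX.filter (fun x => sx ≤ x) := by
      intro x hx
      rw [mem_union, mem_range, mem_filter]
      by_cases h1 : x < sx
      · exact Or.inl h1
      · exact Or.inr ⟨hx, by omega⟩
    refine (card_le_card hsub).trans ((card_union_le _ _).trans ?_)
    rw [card_range]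
    apply Nat.add_le_add_left
    refine card_le_mul_card_image_of_maps_to (f := fun x => x / W + 1) ?_ W ?_
    · intro x hx
      rw [mem_filter] at hx
      exact hmain x hx.1 hx.2
    · intro y hy
      have : (BX.filter (fun x => sx ≤ x)).filter (fun x => x / W + 1 = y) ⊆ Ico (W * (y - 1)) (W * (y - 1) + W) := by
        intro x hx
        rw [mem_filter] at hx
        rw [mem_Ico]
        have h0 : x / W + 1 = y := hx.2
        have h1 : x / W = y - 1 := by rw [← h0, Nat.add_sub_cancel]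
        have h2 := Nat.mul_div_le x W
        have h3 := Nat.lt_mul_div_succ x hW0
        rw [h1] at h2 h3
        rw [Nat.mul_add, mul_one] at h3
        exact ⟨h2, h3⟩
      refine (card_le_card this).trans ?_
      rw [Nat.card_Ico]
      omega
  have hcr : (BX.card : ℝ) ≤ sx + W * b0 := by
    have h1 : (BX.card : ℝ) ≤ ((sx + W * (bdc G W b H₁ r m n₀ Z ((X : ℝ) ^ (τ / 4)) (L ^ A) h).card : ℕ) : ℝ) := by
      exact_mod_cast hcount
    push_cast at h1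
    have h2 : (W : ℝ) * (bdc G W b H₁ r m n₀ Z ((X : ℝ) ^ (τ / 4)) (L ^ A) h).card ≤ W * b0 :=
      mul_le_mul_of_nonneg_left hfew.le (by linarith)
    linarith
  refine hcr.trans ?_
  have g1 : (sx : ℝ) * H ≤ X := by
    have h1 : sx * H ≤ X := by
      by_contra hcon
      push Not at hcon
      have h2 : sx ^ 2 ≤ X := by
        refine le_trans (Nat.pow_le_pow_left ?_ 2) a9
        omega
      have h3 : (sx * H) ^ 2 ≤ X * X := by
        rw [mul_pow]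
        exact Nat.mul_le_mul h2 hHX
      rw [← pow_two] at h3
      exact absurd h3 (not_le.2 (Nat.pow_lt_pow_left hcon (by norm_num)))
    exact_mod_cast h1
  have g2 : (W : ℝ) * b0 ≤ (2 * W ^ 2) * (((X : ℝ) + (X : ℝ) ^ (2 * θ)) * L ^ C0 / H) + W * S X := by
    rw [hb0, mul_add]
    apply add_le_add_left
    have h1 : 1 / (H₁ : ℝ) ≤ 2 * W / H := by
      rw [div_le_div_iff₀ (by linarith) hH0]
      linarith
    calc (W : ℝ) * (((X : ℝ) + (X : ℝ) ^ (2 * θ)) * L ^ C0 / H₁) =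
        W * (((X : ℝ) + (X : ℝ) ^ (2 * θ)) * L ^ C0) * (1 / H₁) := by ring
      _ ≤ W * (((X : ℝ) + (X : ℝ) ^ (2 * θ)) * L ^ C0) * (2 * W / H) :=
          mul_le_mul_of_nonneg_left h1 (by positivity)
      _ = _ := by ring
  have g3 : (W : ℝ) * S X ≤ ((C0 + 1 + W : ℕ) : ℝ) * S X := by
    apply mul_le_mul_of_nonneg_right _ (hS0 X)
    push_cast
    have : (0 : ℝ) ≤ C0 := Nat.cast_nonneg _
    linarith
  have g4 : (sx : ℝ) ≤ ((X : ℝ) + (X : ℝ) ^ (2 * θ)) * L ^ C0 / H := by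
    rw [le_div_iff₀ hH0]
    have h1 : 1 ≤ L ^ C0 := one_le_pow₀ hL1
    calc (sx : ℝ) * H ≤ X := g1
      _ ≤ (X + (X : ℝ) ^ (2 * θ)) * 1 := by linarith
      _ ≤ _ := mul_le_mul_of_nonneg_left h1 (by positivity)
  have g5 : (1 + 2 * (W : ℝ) ^ 2) * (((X : ℝ) + (X : ℝ) ^ (2 * θ)) * L ^ C0 / H) ≤
      ((X : ℝ) + (X : ℝ) ^ (2 * θ)) * L ^ (C0 + 1 + W) / H := by
    calc (1 + 2 * (W : ℝ) ^ 2) * (((X : ℝ) + (X : ℝ) ^ (2 * θ)) * L ^ C0 / H) ≤
        L * (((X : ℝ) + (X : ℝ) ^ (2 * θ)) * L ^ C0 / H) := by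
          apply mul_le_mul_of_nonneg_right _ (by positivity)
          linarith
      _ = ((X : ℝ) + (X : ℝ) ^ (2 * θ)) * L ^ (C0 + 1) / H := by rw [pow_succ]; ring
      _ ≤ _ := by
          apply div_le_div_of_nonneg_right _ hH0.le
          exact mul_le_mul_of_nonneg_left hLC (by positivity)
  linarith

end Pool.Agent.K3h21.LW
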